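import Pool.Agent.R290.RV.Cyc

/-!
A linear automorphism of a free module over the Laurent polynomials over a finite field which has a
nonzero vector of bounded rank along an infinite set of times has an eigenvector whose eigenvalue
is a monomial, for some power.
-/

open LaurentPolynomial Filter

namespace Pool.Agent.R290.RV

variable {k : Type} [Field k] {ι : Type} [Fintype ι] [DecidableEq ι]

section F

variable {F : Type} [Field F] [Algebra k[T;T⁻¹] F] [IsFractionRing k[T;T⁻¹] F]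
  {G : (ι → k[T;T⁻¹]) ≃ₗ[k[T;T⁻¹]] (ι → k[T;T⁻¹])} {S : Set ℕ}

omit [IsFractionRing k[T;T⁻¹] F] in
lemma GF_symm (G : (ι → k[T;T⁻¹]) ≃ₗ[k[T;T⁻¹]] (ι → k[T;T⁻¹])) (x : ι → F) :
    GF F G.symm (GF F G x) = x := by
  unfold GF
  rw [← LinearMap.comp_apply, ← Matrix.toLin'_mul, ← Matrix.map_mul, ← LinearMap.toMatrix'_comp]
  have e : (G.symm : (ι → k[T;T⁻¹]) →ₗ[k[T;T⁻¹]] (ι → k[T;T⁻¹])) ∘ₗ
      (G : (ι → k[T;T⁻¹]) →ₗ[k[T;T⁻¹]] (ι → k[T;T⁻¹])) = LinearMap.id := by
    ext1
    simp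
  rw [e, LinearMap.toMatrix'_id, Matrix.map_one _ (map_zero _) (map_one _), Matrix.toLin'_one]
  rfl

variable {d : ℕ} {w0 : ι → k[T;T⁻¹]}

lemma Mn.mem_symm (h : Mn F G S d w0) {w : ι → k[T;T⁻¹]} (hw : incl F w ∈ VV F G d w0) :
    incl F (G.symm w) ∈ VV F G d w0 := by
  let G' : VV F G d w0 →ₗ[F] VV F G d w0 := (GF F G).restrict h.inv
  have hinj : Function.Injective G' := by
    intro x y hxy
    apply Subtype.ext
    have h1 : GF F G (x : ι → F) = GF F G (y : ι → F) := congrArg Subtype.val hxy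
    rw [← GF_symm G (x : ι → F), h1, GF_symm]
  obtain ⟨x, hx⟩ := (LinearMap.injective_iff_surjective.1 hinj) ⟨incl F w, hw⟩
  have h1 : GF F G (x : ι → F) = incl F w := congrArg Subtype.val hx
  have h2 : incl F (G.symm w) = (x : ι → F) := by
    rw [← GF_symm G (x : ι → F), h1, GF_incl]
  rw [h2]; exact x.2

omit [Fintype ι] in
lemma fun_int [Fintype ι] (φ : (ι → F) →ₗ[F] F) : ∃ q : k[T;T⁻¹], algebraMap k[T;T⁻¹] F q ≠ 0 ∧
    ∃ l : (ι → k[T;T⁻¹]) →ₗ[k[T;T⁻¹]] k[T;T⁻¹],
      ∀ v, algebraMap k[T;T⁻¹] F (l v) = algebraMap k[T;T⁻¹] F q * φ (incl F v) := by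
  obtain ⟨q, hq⟩ := IsLocalization.exist_integer_multiples_of_finite (nonZeroDivisors k[T;T⁻¹])
    (fun m : ι => φ (Pi.single m 1))
  choose L hL using hq
  have hq0 : (q : k[T;T⁻¹]) ≠ 0 := nonZeroDivisors.ne_zero q.2
  refine ⟨q, fun h0 => hq0 (IsFractionRing.injective k[T;T⁻¹] F (by rw [h0, map_zero])),
    ∑ m : ι, (L m) • (LinearMap.proj m : (ι → k[T;T⁻¹]) →ₗ[k[T;T⁻¹]] k[T;T⁻¹]), fun w => ?_⟩
  have e1 : (∑ m : ι, (L m) • (LinearMap.proj m : (ι → k[T;T⁻¹]) →ₗ[k[T;T⁻¹]] k[T;T⁻¹])) w =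
      ∑ m : ι, L m * w m := by
    rw [LinearMap.sum_apply]
    rfl
  have e2 : incl F w = ∑ m : ι, (algebraMap k[T;T⁻¹] F (w m)) • (Pi.single m 1 : ι → F) := by
    ext m'
    rw [Finset.sum_apply, Finset.sum_eq_single m']
    · rw [incl_apply, Pi.smul_apply, Pi.single_eq_same, smul_eq_mul, mul_one]
    · intro m _ hm
      rw [Pi.smul_apply, Pi.single_eq_of_ne hm.symm, smul_zero]
    · intro hm; exact absurd (Finset.mem_univ _) hm
  rw [e1, map_sum, e2, map_sum, Finset.mul_sum]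
  refine Finset.sum_congr rfl fun m _ => ?_
  rw [map_mul, map_smul, hL m, smul_eq_mul, Algebra.smul_def]
  ring

lemma Mn.ann (h : Mn F G S d w0) {w : ι → k[T;T⁻¹]}
    (hw : ∀ l : (ι → k[T;T⁻¹]) →ₗ[k[T;T⁻¹]] k[T;T⁻¹], (∀ t : ℕ, l ((G ^ t) w0) = 0) → l w = 0) :
    incl F w ∈ VV F G d w0 := by
  by_contra hcon
  obtain ⟨φ, h1, h2⟩ := Submodule.exists_le_ker_of_notMem hcon
  obtain ⟨q, hq, l, hl⟩ := fun_int (k := k) φ
  have h3 : l w = 0 := by
    apply hw
    intro t
    apply IsFractionRing.injective k[T;T⁻¹] F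
    rw [hl, h2 (h.mem_pow t), mul_zero, map_zero]
  have h4 := hl w
  rw [h3, map_zero] at h4
  rcases mul_eq_zero.1 h4.symm with h5 | h5
  · exact hq h5
  · exact h1 h5

lemma Mn.width (h : Mn F G S d w0) {Lf : Fin d → Fin d → (ι → k[T;T⁻¹]) →ₗ[k[T;T⁻¹]] k[T;T⁻¹]}
    (hne : ∀ w, w ≠ 0 → incl F w ∈ VV F G d w0 → (Matrix.of fun i j => Lf i j w).det ≠ 0)
    {x y : k[T;T⁻¹]} (hy : y ≠ 0) (hxy : ∀ w, incl F w ∈ VV F G d w0 →
      y * (Matrix.of fun i j => Lf i j (G w)).det = x * (Matrix.of fun i j => Lf i j w).det) (t : ℕ) :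
    wd (Matrix.of fun i j => Lf i j ((G ^ t) w0)).det = wd (Matrix.of fun i j => Lf i j w0).det := by
  have step : ∀ w, w ≠ 0 → incl F w ∈ VV F G d w0 →
      wd (Matrix.of fun i j => Lf i j (G w)).det = wd (Matrix.of fun i j => Lf i j w).det + (wd x - wd y) := by
    intro w hw hV
    have hGw : G w ≠ 0 := by simpa using hw
    have hGV : incl F (G w) ∈ VV F G d w0 := by rw [← GF_incl]; exact h.inv _ hV
    have h1 := hxy w hV
    have h2 := hne _ hGw hGV
    have h3 := hne _ hw hV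
    have hx : x ≠ 0 := by
      rintro rfl
      rw [zero_mul] at h1
      exact mul_ne_zero hy h2 h1
    have h4 := congrArg wd h1
    rw [wd_mul hy h2, wd_mul hx h3] at h4
    omega
  have hw0V : incl F w0 ∈ VV F G d w0 := by simpa using h.mem_pow 0
  have fwd : ∀ t : ℕ, wd (Matrix.of fun i j => Lf i j ((G ^ t) w0)).det =
      wd (Matrix.of fun i j => Lf i j w0).det + t * (wd x - wd y) := by
    intro t
    induction t with
    | zero => simp
    | succ t ih =>
      have h1 : (G ^ t) w0 ≠ 0 := by simpa using h.ne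
      have h2 := step _ h1 (h.mem_pow t)
      rw [pow_succ', LinearEquiv.mul_apply, h2, ih]
      push_cast
      ring
  have bwd : ∀ t : ℕ, ∃ v : ι → k[T;T⁻¹], v ≠ 0 ∧ incl F v ∈ VV F G d w0 ∧
      wd (Matrix.of fun i j => Lf i j w0).det =
      wd (Matrix.of fun i j => Lf i j v).det + t * (wd x - wd y) := by
    intro t
    induction t with
    | zero => exact ⟨w0, h.ne, hw0V, by simp⟩
    | succ t ih =>
      obtain ⟨v, h1, h2, h3⟩ := ih
      have h4 : G.symm v ≠ 0 := by simpa using h1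
      have h5 := step _ h4 (h.mem_symm h2)
      rw [LinearEquiv.apply_symm_apply] at h5
      refine ⟨G.symm v, h4, h.mem_symm h2, ?_⟩
      rw [h3, h5]
      push_cast
      ring
  have hE : wd x - wd y = 0 := by
    set a := wd (Matrix.of fun i j => Lf i j w0).det
    have ha : 0 ≤ a := wd_nonneg (hne _ h.ne hw0V)
    have h1 := fwd (a.toNat + 1)
    have h1' : 0 ≤ wd (Matrix.of fun i j => Lf i j ((G ^ (a.toNat + 1)) w0)).det :=
      wd_nonneg (hne _ (by simpa using h.ne) (h.mem_pow _))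
    obtain ⟨v, hv1, hv2, hv3⟩ := bwd (a.toNat + 1)
    have h2' : 0 ≤ wd (Matrix.of fun i j => Lf i j v).det := wd_nonneg (hne _ hv1 hv2)
    have hc : ((a.toNat + 1 : ℕ) : ℤ) = a + 1 := by omega
    rw [hc] at h1 hv3
    by_contra hne0
    rcases lt_or_gt_of_ne hne0 with h3 | h3
    · have : wd x - wd y ≤ -1 := by omega
      nlinarith
    · have : 1 ≤ wd x - wd y := by omega
      nlinarith
  rw [fwd t, hE]
  ring

end F

/-- conjugation of a linear form by the inversion -/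
noncomputable def cj (l : (ι → k[T;T⁻¹]) →ₗ[k[T;T⁻¹]] k[T;T⁻¹]) :
    (ι → k[T;T⁻¹]) →ₗ[k[T;T⁻¹]] k[T;T⁻¹] where
  toFun w := invert (l fun i => invert (w i))
  map_add' v w := by
    rw [← map_add, ← map_add]
    congr 2
    ext i : 1
    rw [Pi.add_apply, map_add]; rfl
  map_smul' r w := by
    have e : (fun i => invert ((r • w) i)) = invert r • (fun i => invert (w i)) := by
      ext i : 1
      rw [Pi.smul_apply, smul_eq_mul, map_mul, Pi.smul_apply, smul_eq_mul]
    rw [e, map_smul, smul_eq_mul, map_mul, involutive_invert r, RingHom.id_apply, smul_eq_mul]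

omit [Fintype ι] [DecidableEq ι] in
lemma cj_apply (l : (ι → k[T;T⁻¹]) →ₗ[k[T;T⁻¹]] k[T;T⁻¹]) (w : ι → k[T;T⁻¹]) :
    cj l w = invert (l fun i => invert (w i)) := rfl

omit [DecidableEq ι] in
lemma vs_inv (w : ι → k[T;T⁻¹]) : (vs (fun i => invert (w i))).card ≤ (vs w).card := by
  have h : vs (fun i => invert (w i)) ⊆ (vs w).image (fun m => -m) := by
    intro m hm
    obtain ⟨i, hi⟩ := mem_vs.1 hm
    rw [invert_apply] at hi
    exact Finset.mem_image.2 ⟨-m, mem_vs.2 ⟨i, hi⟩, neg_neg m⟩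
  exact (Finset.card_le_card h).trans Finset.card_image_le

omit [Fintype ι] [DecidableEq ι] in
lemma inv_inv_fun (w : ι → k[T;T⁻¹]) : (fun i => invert (invert (w i))) = w := by
  ext i : 1
  exact involutive_invert _

omit [Fintype ι] [DecidableEq ι] in
lemma cj_det {d : ℕ} (Lf : Fin d → Fin d → (ι → k[T;T⁻¹]) →ₗ[k[T;T⁻¹]] k[T;T⁻¹])
    (w : ι → k[T;T⁻¹]) : (Matrix.of fun i j => cj (Lf i j) w).det =
      invert (Matrix.of fun i j => Lf i j (fun i => invert (w i))).det := by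
  have h := RingHom.map_det ((invert : k[T;T⁻¹] ≃ₐ[k] k[T;T⁻¹]) : k[T;T⁻¹] →+* k[T;T⁻¹])
    (Matrix.of fun i j => Lf i j (fun i => invert (w i)))
  have h' : invert (Matrix.of fun i j => Lf i j (fun i => invert (w i))).det = _ := h
  rw [h']
  congr 1

theorem main_alg [Finite k] (G : (ι → k[T;T⁻¹]) ≃ₗ[k[T;T⁻¹]] (ι → k[T;T⁻¹])) {S : Set ℕ}
    (hS : S.Infinite) {w : ι → k[T;T⁻¹]} (hw : w ≠ 0) (hB : Bd G S w) :
    ∃ g : ι → k[T;T⁻¹], g ≠ 0 ∧ ∃ s : ℕ, 0 < s ∧ ∃ m : ℤ, (G ^ s) g = (T m : k[T;T⁻¹]) • g := by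
  obtain ⟨d, w0, hM⟩ := exists_Mn (F := FractionRing k[T;T⁻¹]) hw hB
  obtain ⟨Lf, hne, x, y, hy, hxy⟩ := hM.dets
  have hwidth := hM.width hne hy hxy
  obtain ⟨r, hr⟩ := hM.bd
  have hnb : NeBot (atTop ⊓ 𝓟 S) := by
    rw [← frequently_mem_iff_neBot]
    exact Nat.frequently_atTop_iff_infinite.2 hS
  set U := Ultrafilter.of (atTop ⊓ 𝓟 S) with hU
  have hU1 : (U : Filter ℕ) ≤ atTop ⊓ 𝓟 S := Ultrafilter.of_le _
  have hU2 : (U : Filter ℕ) ≤ atTop := hU1.trans inf_le_left
  have hU3 : ∀ᶠ t in (U : Filter ℕ), t ∈ S := (hU1.trans inf_le_right) (mem_principal_self S)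
  set f : ℕ → ι → k[T;T⁻¹] := fun t => (G ^ t) w0 with hfdef
  have hf : ∀ t, f t ≠ 0 := fun t => by
    show (G ^ t) w0 ≠ 0
    simpa using hM.ne
  have hr' : ∀ᶠ t in (U : Filter ℕ), (vs (f t)).card ≤ r := by
    filter_upwards [hU3] with t ht using hr t ht
  have hann : ∀ w, w ≠ 0 → (∀ l ∈ {l : (ι → k[T;T⁻¹]) →ₗ[k[T;T⁻¹]] k[T;T⁻¹] | ∀ t, l (f t) = 0}, l w = 0) →
      (Matrix.of fun i j => Lf i j w).det ≠ 0 := by
    intro w hw hl
    exact hne w hw (hM.ann fun l hl' => hl l hl')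
  obtain ⟨N, o, g, hN, hg, hg0, hlo⟩ := endlem U r f hf hr' Lf
    {l | ∀ t, l (f t) = 0} (fun l hl t => hl t) hann
  -- the other end
  set f' : ℕ → ι → k[T;T⁻¹] := fun t i => invert (f t i) with hf'def
  have hf' : ∀ t, f' t ≠ 0 := by
    intro t h0
    apply hf t
    ext i : 1
    have h1 : invert (f t i) = 0 := congrFun h0 i
    have h2 := congrArg invert h1
    rw [involutive_invert, map_zero] at h2
    exact h2
  have hr'' : ∀ᶠ t in (U : Filter ℕ), (vs (f' t)).card ≤ r := by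
    filter_upwards [hr'] with t ht using (vs_inv _).trans ht
  obtain ⟨N', o', g', hN', -, -, hlo'⟩ := endlem U r f' hf' hr'' (fun i j => cj (Lf i j))
    {l | ∀ t, l (f' t) = 0} (fun l hl t => hl t) (by
      intro w hw hl
      rw [cj_det]
      apply invert_ne
      apply hann
      · intro h0
        apply hw
        ext i : 1
        have h1 : invert (w i) = 0 := congrFun h0 i
        have h2 := congrArg invert h1
        rw [involutive_invert, map_zero] at h2
        exact h2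
      · intro l hl'
        have h1 : cj l w = 0 := by
          apply hl
          intro t
          rw [cj_apply]
          have e : (fun i => invert (f' t i)) = f t := inv_inv_fun (f t)
          rw [e, hl' t, map_zero]
        rw [cj_apply] at h1
        have h2 := congrArg invert h1
        rw [involutive_invert, map_zero] at h2
        exact h2)
  -- the sum of the two ends is constant
  have hsum : ∀ᶠ t in (U : Filter ℕ), (d : ℤ) * (N t + N' t) =
      -wd (Matrix.of fun i j => Lf i j w0).det - o - o' := by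
    filter_upwards [hlo, hlo'] with t h1 h2
    have h3 := hwidth t
    have e : (Matrix.of fun i j => cj (Lf i j) (f' t)).det =
        invert (Matrix.of fun i j => Lf i j ((G ^ t) w0)).det := by
      rw [cj_det]
      have e : (fun i => invert (f' t i)) = f t := inv_inv_fun (f t)
      rw [e]
    have h2' : lo (invert (Matrix.of fun i j => Lf i j ((G ^ t) w0)).det) = d * N' t + o' := by
      rw [← e]; exact h2
    have h1' : lo (Matrix.of fun i j => Lf i j ((G ^ t) w0)).det = d * N t + o := h1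
    rw [← h3]
    unfold wd hi
    rw [h1', h2']
    ring
  obtain ⟨t0, ht0⟩ := hsum.exists
  set B : ℤ := -(N t0 + N' t0) with hB'
  have hBt : ∀ᶠ t in (U : Filter ℕ), N t + N' t = -B := by
    filter_upwards [hsum] with t ht
    rw [← ht0] at ht
    have hd : (d : ℤ) ≠ 0 := by have := hM.pos; omega
    rw [mul_left_cancel₀ hd ht, hB', neg_neg]
  have hup : ∀ᶠ t in (U : Filter ℕ), ∀ (i : ι) (m : ℤ), B < m → (f t i).coeff (N t + m) = 0 := by
    filter_upwards [hBt] with t ht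
    intro i m hm
    have h1 := hN' t i (-(N t + m)) (by omega)
    rw [hf'def] at h1
    beta_reduce at h1
    rw [invert_apply, neg_neg] at h1
    exact h1
  have hgup : ∀ (i : ι) (m : ℤ), B < m → (g i).coeff m = 0 := by
    intro i m hm
    obtain ⟨t, h1, h2⟩ := ((hg m).and hup).exists
    rw [← h1 i]
    exact h2 i m hm
  have hglo : ∀ (i : ι) (m : ℤ), m < 0 → (g i).coeff m = 0 := by
    intro i m hm
    obtain ⟨t, h1⟩ := (hg m).exists
    rw [← h1 i]
    exact hN t i _ (by omega)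
  have heq : ∀ᶠ t in (U : Filter ℕ), f t = (T (N t) : k[T;T⁻¹]) • g := by
    filter_upwards [hup, limit_Lo hN hg (B.toNat + 1)] with t h1 h2
    ext i m
    rw [Pi.smul_apply, smul_eq_mul, coeff_T_mul]
    by_cases hm : m - N t ≤ B
    · have h3 := h2 i (m - N t) (by omega)
      rw [AddMonoidAlgebra.coeff_sub, Finsupp.sub_apply, coeff_T_mul, sub_eq_zero] at h3
      rw [← h3]
      congr 1
      ring
    · have h3 := h1 i (m - N t) (by omega)
      rw [show N t + (m - N t) = m by ring] at h3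
      rw [h3, hgup i _ (by omega)]
  obtain ⟨t1, h1⟩ := heq.exists
  obtain ⟨t2, h2, h3⟩ := (heq.and (hU2 (eventually_gt_atTop t1))).exists
  refine ⟨g, hg0, t2 - t1, by omega, N t2 - N t1, ?_⟩
  have h4 : (G ^ (t2 - t1)) (f t1) = f t2 := by
    show (G ^ (t2 - t1)) ((G ^ t1) w0) = (G ^ t2) w0
    rw [← LinearEquiv.mul_apply, ← pow_add, Nat.sub_add_cancel h3.le]
  rw [h1, h2, map_smul] at h4
  have h5 := congrArg (fun v => (T (-N t1) : k[T;T⁻¹]) • v) h4
  simp only [smul_smul, ← T_add, neg_add_cancel, T_zero, one_smul] at h5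
  rw [h5]
  congr 2
  ring

end Pool.Agent.R290.RV
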