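import Pool.Agent.R290.RV.End

/-!
Vectors of bounded rank along a set of times.
-/

open LaurentPolynomial Filter

namespace Pool.Agent.R290.RV

variable {k : Type} [Field k] {ι : Type} [Fintype ι] [DecidableEq ι]

lemma coeff_mul_ne {r s : k[T;T⁻¹]} {m : ℤ} (h : (r * s).coeff m ≠ 0) :
    ∃ a b : ℤ, a + b = m ∧ r.coeff a ≠ 0 ∧ s.coeff b ≠ 0 := by
  rw [AddMonoidAlgebra.coeff_mul] at h
  obtain ⟨a, ha, h1⟩ := Finset.exists_ne_zero_of_sum_ne_zero h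
  obtain ⟨b, hb, h2⟩ := Finset.exists_ne_zero_of_sum_ne_zero h1
  refine ⟨a, b, ?_, Finsupp.mem_support_iff.1 ha, Finsupp.mem_support_iff.1 hb⟩
  by_contra hne
  apply h2
  beta_reduce
  rw [if_neg hne]

omit [DecidableEq ι] in
lemma vs_add (a b : ι → k[T;T⁻¹]) : vs (a + b) ⊆ vs a ∪ vs b := by
  intro m hm
  obtain ⟨i, hi⟩ := mem_vs.1 hm
  rw [Finset.mem_union]
  by_contra hcon
  push Not at hcon
  apply hi
  rw [Pi.add_apply, AddMonoidAlgebra.coeff_add, Finsupp.add_apply]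
  have h1 : (a i).coeff m = 0 := by
    by_contra h; exact hcon.1 (mem_vs.2 ⟨i, h⟩)
  have h2 : (b i).coeff m = 0 := by
    by_contra h; exact hcon.2 (mem_vs.2 ⟨i, h⟩)
  rw [h1, h2, add_zero]

omit [DecidableEq ι] in
lemma vs_smul (r : k[T;T⁻¹]) (a : ι → k[T;T⁻¹]) :
    (vs (r • a)).card ≤ r.coeff.support.card * (vs a).card := by
  classical
  have h : vs (r • a) ⊆ Finset.image₂ (· + ·) r.coeff.support (vs a) := by
    intro m hm
    obtain ⟨i, hi⟩ := mem_vs.1 hm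
    rw [Pi.smul_apply, smul_eq_mul] at hi
    obtain ⟨x, y, hxy, hx, hy⟩ := coeff_mul_ne hi
    exact Finset.mem_image₂.2 ⟨x, Finsupp.mem_support_iff.2 hx, y, mem_vs.2 ⟨i, hy⟩, hxy⟩
  exact (Finset.card_le_card h).trans (Finset.card_image₂_le _ _ _)

lemma vs_lin (l : (ι → k[T;T⁻¹]) →ₗ[k[T;T⁻¹]] (ι → k[T;T⁻¹])) :
    ∃ C : ℕ, ∀ w, (vs (l w)).card ≤ (vs w).card * C := by
  classical
  refine ⟨(Finset.univ.biUnion fun j => vs (l (Pi.single j 1))).card, fun w => ?_⟩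
  have h : vs (l w) ⊆ Finset.image₂ (· + ·) (vs w) (Finset.univ.biUnion fun j => vs (l (Pi.single j 1))) := by
    intro m hm
    obtain ⟨i, hi⟩ := mem_vs.1 hm
    rw [LinearMap.pi_apply_eq_sum_univ l w, Finset.sum_apply, AddMonoidAlgebra.coeff_sum,
      Finsupp.finsetSum_apply] at hi
    obtain ⟨j, _, hj⟩ := Finset.exists_ne_zero_of_sum_ne_zero hi
    have e : (fun j' => if j = j' then (1 : k[T;T⁻¹]) else 0) = Pi.single j 1 := by
      ext j' : 1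
      rw [Pi.single_apply]
      by_cases h : j = j'
      · rw [if_pos h, if_pos h.symm]
      · rw [if_neg h, if_neg (Ne.symm h)]
    rw [e, Pi.smul_apply, smul_eq_mul] at hj
    obtain ⟨x, y, hxy, hx, hy⟩ := coeff_mul_ne hj
    exact Finset.mem_image₂.2 ⟨x, mem_vs.2 ⟨j, hx⟩, y,
      Finset.mem_biUnion.2 ⟨j, Finset.mem_univ _, mem_vs.2 ⟨i, hy⟩⟩, hxy⟩
  exact (Finset.card_le_card h).trans (Finset.card_image₂_le _ _ _)

variable (G : (ι → k[T;T⁻¹]) ≃ₗ[k[T;T⁻¹]] (ι → k[T;T⁻¹])) (S : Set ℕ)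

/-- bounded rank along `S` -/
def Bd (w : ι → k[T;T⁻¹]) : Prop := ∃ r : ℕ, ∀ t ∈ S, (vs ((G ^ t) w)).card ≤ r

variable {G S}

omit [DecidableEq ι] in
lemma Bd.add {a b : ι → k[T;T⁻¹]} (ha : Bd G S a) (hb : Bd G S b) : Bd G S (a + b) := by
  obtain ⟨r, hr⟩ := ha
  obtain ⟨s, hs⟩ := hb
  refine ⟨r + s, fun t ht => ?_⟩
  rw [map_add]
  exact ((Finset.card_le_card (vs_add _ _)).trans (Finset.card_union_le _ _)).trans
    (add_le_add (hr t ht) (hs t ht))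

omit [DecidableEq ι] in
lemma Bd.smul {a : ι → k[T;T⁻¹]} (ha : Bd G S a) (c : k[T;T⁻¹]) : Bd G S (c • a) := by
  obtain ⟨r, hr⟩ := ha
  refine ⟨c.coeff.support.card * r, fun t ht => ?_⟩
  rw [map_smul]
  exact (vs_smul _ _).trans (Nat.mul_le_mul_left _ (hr t ht))

omit [DecidableEq ι] in
lemma Bd.zero : Bd G S 0 := ⟨0, fun t _ => by
  rw [map_zero]
  have : vs (0 : ι → k[T;T⁻¹]) = ∅ := by
    ext m
    rw [mem_vs]
    simp
  rw [this]; simp⟩

omit [DecidableEq ι] in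
lemma Bd.sum {α : Type*} {s : Finset α} {f : α → ι → k[T;T⁻¹]} (h : ∀ i ∈ s, Bd G S (f i)) :
    Bd G S (∑ i ∈ s, f i) := by
  classical
  induction s using Finset.induction_on with
  | empty => rw [Finset.sum_empty]; exact Bd.zero
  | insert i s hi ih =>
    rw [Finset.sum_insert hi]
    exact (h i (Finset.mem_insert_self _ _)).add (ih fun j hj => h j (Finset.mem_insert_of_mem hj))

lemma Bd.map {a : ι → k[T;T⁻¹]} (ha : Bd G S a) : Bd G S (G a) := by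
  obtain ⟨r, hr⟩ := ha
  obtain ⟨C, hC⟩ := vs_lin (G : (ι → k[T;T⁻¹]) →ₗ[k[T;T⁻¹]] (ι → k[T;T⁻¹]))
  refine ⟨r * C, fun t ht => ?_⟩
  have e : (G ^ t) (G a) = G ((G ^ t) a) := by
    rw [← LinearEquiv.mul_apply, ← LinearEquiv.mul_apply, ← pow_succ, ← pow_succ']
  rw [e]
  exact (hC _).trans (Nat.mul_le_mul_right _ (hr t ht))

lemma Bd.map_pow {a : ι → k[T;T⁻¹]} (ha : Bd G S a) (n : ℕ) : Bd G S ((G ^ n) a) := by
  induction n with
  | zero => simpa using ha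
  | succ n ih =>
    rw [pow_succ', LinearEquiv.mul_apply]
    exact ih.map

end Pool.Agent.R290.RV
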