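import Mathlib

/-!
Abelian cellular automata, characters, harmonically mixing measures and randomization.
-/

open MeasureTheory Filter Topology

namespace Pool.Agent.R290.RV

variable {A : Type} [AddCommGroup A]

/-- The shift. -/
def shf (x : ℤ → A) : ℤ → A := fun i => x (i + 1)

/-- `F` is an abelian cellular automaton: continuous, commuting with the shift, additive. -/
structure AbelianCA [TopologicalSpace A] (F : (ℤ → A) → (ℤ → A)) : Prop where
  cont : Continuous F
  comm : ∀ x, F (shf x) = shf (F x)
  add : ∀ x y, F (x + y) = F x + F y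

/-- The character of `ℤ → A` with the characters `c i` of `A`, all but finitely many trivial. -/
noncomputable def chr (c : ℤ →₀ AddChar A ℂ) (x : ℤ → A) : ℂ := ∏ i ∈ c.support, c i (x i)

variable [MeasurableSpace A]

/-- Harmonically mixing: the Fourier coefficients at characters of large rank are small. -/
def HarmMix (μ : Measure (ℤ → A)) : Prop :=
  ∀ ε : ℝ, 0 < ε → ∃ R : ℕ, ∀ c : ℤ →₀ AddChar A ℂ, R < c.support.card → ‖∫ x, chr c x ∂μ‖ < ε

variable (A) in
/-- The Haar probability measure of `ℤ → A` (the uniform Bernoulli measure). -/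
noncomputable def haar [TopologicalSpace A] [Finite A] [DiscreteTopology A]
    [DiscreteMeasurableSpace A] : Measure (ℤ → A) :=
  Measure.addHaarMeasure ⊤

/-- The measures `F^t μ` converge weak-* to the Haar measure as `t → ∞` in `D`. -/
def ConvTo [TopologicalSpace A] [Finite A] [DiscreteTopology A] [DiscreteMeasurableSpace A]
    (F : (ℤ → A) → (ℤ → A))
    (μ : Measure (ℤ → A)) (D : Set ℕ) : Prop :=
  ∀ f : C(ℤ → A, ℝ), Tendsto (fun t : ℕ => ∫ x, f x ∂(μ.map (F^[t]))) (atTop ⊓ 𝓟 D)
    (𝓝 (∫ x, f x ∂(haar A)))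

/-- The set `D` of times has lower density one. -/
def DensityOne (D : Set ℕ) : Prop :=
  liminf (fun n : ℕ => ((D ∩ Set.Iic n).ncard : ℝ) / n) atTop = 1

/-- Strongly randomizing. -/
def StronglyRandomizing [TopologicalSpace A] [Finite A] [DiscreteTopology A] [DiscreteMeasurableSpace A]
    (F : (ℤ → A) → (ℤ → A)) : Prop :=
  ∀ μ : Measure (ℤ → A), IsProbabilityMeasure μ → HarmMix μ → ConvTo F μ Set.univ

/-- Randomizing in density. -/
def RandomizingInDensity [TopologicalSpace A] [Finite A] [DiscreteTopology A] [DiscreteMeasurableSpace A]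
    (F : (ℤ → A) → (ℤ → A)) : Prop :=
  ∀ μ : Measure (ℤ → A), IsProbabilityMeasure μ → HarmMix μ → ∃ D : Set ℕ, DensityOne D ∧ ConvTo F μ D

end Pool.Agent.R290.RV
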