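import Pool.Agent.R290.RV.Bd

/-!
A vector of bounded rank with the smallest cyclic space, and the determinants attached to it.
-/

open LaurentPolynomial Filter

namespace Pool.Agent.R290.RV

variable {k : Type} [Field k] {ι : Type} [Fintype ι] [DecidableEq ι]
  {F : Type} [Field F] [Algebra k[T;T⁻¹] F] [IsFractionRing k[T;T⁻¹] F]

variable (F) in
/-- the inclusion in the vector space -/
noncomputable def incl : (ι → k[T;T⁻¹]) →ₗ[k[T;T⁻¹]] (ι → F) := (Algebra.linearMap k[T;T⁻¹] F).compLeft ι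

omit [Fintype ι] [DecidableEq ι] [IsFractionRing k[T;T⁻¹] F] in
lemma incl_apply (w : ι → k[T;T⁻¹]) (i : ι) : incl F w i = algebraMap k[T;T⁻¹] F (w i) := rfl

omit [Fintype ι] [DecidableEq ι] in
lemma incl_inj : Function.Injective (incl F : (ι → k[T;T⁻¹]) → (ι → F)) := by
  intro v w h
  ext i : 1
  exact IsFractionRing.injective k[T;T⁻¹] F (congrFun h i)

omit [Fintype ι] [DecidableEq ι] [IsFractionRing k[T;T⁻¹] F] in
lemma incl_smul (r : k[T;T⁻¹]) (w : ι → k[T;T⁻¹]) :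
    incl F (r • w) = algebraMap k[T;T⁻¹] F r • incl F w := by
  ext i
  rw [incl_apply, Pi.smul_apply, smul_eq_mul, map_mul, Pi.smul_apply, smul_eq_mul, incl_apply]

variable (F) in
/-- the extension of a linear map -/
noncomputable def GF (G : (ι → k[T;T⁻¹]) ≃ₗ[k[T;T⁻¹]] (ι → k[T;T⁻¹])) : (ι → F) →ₗ[F] (ι → F) :=
  Matrix.toLin' ((LinearMap.toMatrix' G.toLinearMap).map (algebraMap k[T;T⁻¹] F))

omit [IsFractionRing k[T;T⁻¹] F] in
lemma GF_incl (G : (ι → k[T;T⁻¹]) ≃ₗ[k[T;T⁻¹]] (ι → k[T;T⁻¹])) (w : ι → k[T;T⁻¹]) :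
    GF F G (incl F w) = incl F (G w) := by
  ext i
  unfold GF
  rw [Matrix.toLin'_apply, incl_apply]
  have h := RingHom.map_mulVec (algebraMap k[T;T⁻¹] F) (LinearMap.toMatrix' G.toLinearMap) w i
  rw [LinearMap.toMatrix'_mulVec] at h
  exact h.symm

omit [IsFractionRing k[T;T⁻¹] F] in
lemma GF_pow_incl (G : (ι → k[T;T⁻¹]) ≃ₗ[k[T;T⁻¹]] (ι → k[T;T⁻¹])) (w : ι → k[T;T⁻¹]) (n : ℕ) :
    ((GF F G) ^ n) (incl F w) = incl F ((G ^ n) w) := by
  induction n with
  | zero => simp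
  | succ n ih =>
    rw [pow_succ', Module.End.mul_apply, ih, GF_incl, pow_succ', LinearEquiv.mul_apply]

variable {G : (ι → k[T;T⁻¹]) ≃ₗ[k[T;T⁻¹]] (ι → k[T;T⁻¹])} {S : Set ℕ}

variable (F G S) in
/-- there is a nonzero vector of bounded rank whose first `d + 1` iterates are dependent -/
def QQ (d : ℕ) : Prop := ∃ w : ι → k[T;T⁻¹], w ≠ 0 ∧ Bd G S w ∧
  ¬ LinearIndependent F (fun j : Fin (d + 1) => incl F ((G ^ (j : ℕ)) w))

omit [DecidableEq ι] [IsFractionRing k[T;T⁻¹] F] in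
lemma QQ_ex {w : ι → k[T;T⁻¹]} (hw : w ≠ 0) (hB : Bd G S w) : ∃ d, QQ F G S d := by
  refine ⟨Fintype.card ι, w, hw, hB, fun h => ?_⟩
  have := h.fintype_card_le_finrank
  rw [Fintype.card_fin, Module.finrank_fintype_fun_eq_card] at this
  omega

omit [Fintype ι] [DecidableEq ι] in
lemma QQ_zero [Fintype ι] : ¬ QQ F G S 0 := by
  rintro ⟨w, hw, _, h⟩
  apply h
  rw [Fintype.linearIndependent_iff]
  intro g hg i
  have hi : i = 0 := Fin.ext (by have := i.2; omega)
  subst hi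
  rw [Fin.sum_univ_one] at hg
  rcases smul_eq_zero.1 hg with h1 | h1
  · exact h1
  · exfalso
    apply hw
    apply incl_inj (F := F)
    rw [map_zero]
    simpa using h1

omit [DecidableEq ι] [IsFractionRing k[T;T⁻¹] F] in
lemma LI_of {d : ℕ} (hmin : ∀ m < d, ¬ QQ F G S m) {w : ι → k[T;T⁻¹]} (hw : w ≠ 0) (hB : Bd G S w) :
    LinearIndependent F (fun j : Fin d => incl F ((G ^ (j : ℕ)) w)) := by
  rcases d with _ | d
  · exact linearIndependent_empty_type
  · by_contra h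
    exact hmin d (by omega) ⟨w, hw, hB, h⟩

/-- The data of a minimal vector. -/
structure Mn (F : Type) [Field F] [Algebra k[T;T⁻¹] F] (G : (ι → k[T;T⁻¹]) ≃ₗ[k[T;T⁻¹]] (ι → k[T;T⁻¹]))
    (S : Set ℕ) (d : ℕ) (w : ι → k[T;T⁻¹]) : Prop where
  bd : Bd G S w
  ne : w ≠ 0
  pos : 0 < d
  li : ∀ v : ι → k[T;T⁻¹], v ≠ 0 → Bd G S v →
    LinearIndependent F (fun j : Fin d => incl F ((G ^ (j : ℕ)) v))
  dep : ¬ LinearIndependent F (fun j : Fin (d + 1) => incl F ((G ^ (j : ℕ)) w))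

omit [DecidableEq ι] in
lemma exists_Mn {w : ι → k[T;T⁻¹]} (hw : w ≠ 0) (hB : Bd G S w) :
    ∃ d w0, Mn F G S d w0 := by
  classical
  have hex := QQ_ex (F := F) hw hB
  obtain ⟨w0, h1, h2, h3⟩ := Nat.find_spec hex
  have hmin : ∀ m < Nat.find hex, ¬ QQ F G S m := fun m hm => Nat.find_min hex hm
  refine ⟨Nat.find hex, w0, h2, h1, ?_, fun v hv hBv => LI_of hmin hv hBv, h3⟩
  rw [Nat.pos_iff_ne_zero]
  intro h0
  have := Nat.find_spec hex
  rw [h0] at this
  exact QQ_zero this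

variable (F G) in
/-- the cyclic space -/
def VV (d : ℕ) (w : ι → k[T;T⁻¹]) : Submodule F (ι → F) :=
  Submodule.span F (Set.range fun j : Fin d => incl F ((G ^ (j : ℕ)) w))

variable {d : ℕ} {w0 : ι → k[T;T⁻¹]}

omit [DecidableEq ι] [IsFractionRing k[T;T⁻¹] F] in
lemma Mn.last (h : Mn F G S d w0) : incl F ((G ^ d) w0) ∈ VV F G d w0 := by
  have h1 := h.dep
  rw [linearIndependent_finSucc'] at h1
  have h2 : LinearIndependent F (Fin.init fun j : Fin (d + 1) => incl F ((G ^ (j : ℕ)) w0)) :=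
    h.li w0 h.ne h.bd
  by_contra h3
  exact h1 ⟨h2, h3⟩

omit [IsFractionRing k[T;T⁻¹] F] in
lemma Mn.inv (h : Mn F G S d w0) : ∀ x ∈ VV F G d w0, GF F G x ∈ VV F G d w0 := by
  intro x hx
  unfold VV at hx
  induction hx using Submodule.span_induction with
  | mem x hx =>
    obtain ⟨j, rfl⟩ := hx
    beta_reduce
    rw [GF_incl]
    have e : G ((G ^ (j : ℕ)) w0) = (G ^ ((j : ℕ) + 1)) w0 := by
      rw [pow_succ', LinearEquiv.mul_apply]
    rw [e]
    by_cases hj : (j : ℕ) + 1 < d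
    · exact Submodule.subset_span ⟨⟨(j : ℕ) + 1, hj⟩, rfl⟩
    · have : (j : ℕ) + 1 = d := by have := j.2; omega
      rw [this]; exact h.last
  | zero => rw [map_zero]; exact Submodule.zero_mem _
  | add x y _ _ hx hy => rw [map_add]; exact Submodule.add_mem _ hx hy
  | smul a x _ hx => rw [map_smul]; exact Submodule.smul_mem _ _ hx

lemma Mn.mem_pow (h : Mn F G S d w0) (n : ℕ) :
    incl F ((G ^ n) w0) ∈ VV F G d w0 := by
  rw [← GF_pow_incl]
  induction n with
  | zero =>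
    refine Submodule.subset_span ⟨⟨0, h.pos⟩, ?_⟩
    simp
  | succ n ih =>
    rw [pow_succ', Module.End.mul_apply]
    exact h.inv _ ih

lemma Mn.li_of (h : Mn F G S d w0) {w : ι → k[T;T⁻¹]} (hw : w ≠ 0)
    (hV : incl F w ∈ VV F G d w0) :
    LinearIndependent F (fun j : Fin d => incl F ((G ^ (j : ℕ)) w)) := by
  obtain ⟨c, hc⟩ := (Submodule.mem_span_range_iff_exists_fun F).1 hV
  obtain ⟨q, hq⟩ := IsLocalization.exist_integer_multiples_of_finite (nonZeroDivisors k[T;T⁻¹]) c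
  choose a ha using hq
  have hq0 : (q : k[T;T⁻¹]) ≠ 0 := nonZeroDivisors.ne_zero q.2
  have e : (q : k[T;T⁻¹]) • w = ∑ j : Fin d, a j • (G ^ (j : ℕ)) w0 := by
    apply incl_inj (F := F)
    rw [incl_smul, ← hc, map_sum, Finset.smul_sum]
    refine Finset.sum_congr rfl fun j _ => ?_
    rw [incl_smul, ha, smul_smul]
    congr 1
    rw [Algebra.smul_def]
  have hB : Bd G S ((q : k[T;T⁻¹]) • w) := by
    rw [e]
    exact Bd.sum fun j _ => (h.bd.map_pow _).smul _
  have h1 := h.li _ (smul_ne_zero hq0 hw) hB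
  rw [Fintype.linearIndependent_iff] at h1 ⊢
  intro g hg
  apply h1 g
  have e2 : ∀ j : Fin d, g j • incl F ((G ^ (j : ℕ)) ((q : k[T;T⁻¹]) • w)) =
      algebraMap k[T;T⁻¹] F q • (g j • incl F ((G ^ (j : ℕ)) w)) := by
    intro j
    rw [map_smul, incl_smul, smul_comm]
  rw [Finset.sum_congr rfl fun j _ => e2 j, ← Finset.smul_sum, hg, smul_zero]

/-- The determinants. -/
theorem Mn.dets (h : Mn F G S d w0) :
    ∃ Lf : Fin d → Fin d → (ι → k[T;T⁻¹]) →ₗ[k[T;T⁻¹]] k[T;T⁻¹],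
      (∀ w, w ≠ 0 → incl F w ∈ VV F G d w0 → (Matrix.of fun i j => Lf i j w).det ≠ 0) ∧
      ∃ x y : k[T;T⁻¹], y ≠ 0 ∧ ∀ w, incl F w ∈ VV F G d w0 →
        y * (Matrix.of fun i j => Lf i j (G w)).det = x * (Matrix.of fun i j => Lf i j w).det := by
  classical
  let b : Module.Basis (Fin d) F (VV F G d w0) := Module.Basis.span (h.li w0 h.ne h.bd)
  let G' : VV F G d w0 →ₗ[F] VV F G d w0 := (GF F G).restrict h.inv
  have hG'pow : ∀ (n : ℕ) (x : VV F G d w0), (((G' ^ n) x : VV F G d w0) : ι → F) = ((GF F G) ^ n) (x : ι → F) := by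
    intro n x
    induction n with
    | zero => simp
    | succ n ih => rw [pow_succ', Module.End.mul_apply, pow_succ', Module.End.mul_apply, ← ih]; rfl
  choose lam hlam using fun i : Fin d => LinearMap.exists_extend (b.coord i)
  have hlam' : ∀ i (x : VV F G d w0), lam i (x : ι → F) = b.repr x i := by
    intro i x
    have := LinearMap.congr_fun (hlam i) x
    exact this
  -- coefficients
  obtain ⟨q, hq⟩ := IsLocalization.exist_integer_multiples_of_finite (nonZeroDivisors k[T;T⁻¹])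
    (fun p : Fin d × Fin d × ι => lam p.1 (((GF F G) ^ (p.2.1 : ℕ)) (Pi.single p.2.2 1)))
  choose L hL using hq
  have hq0 : (q : k[T;T⁻¹]) ≠ 0 := nonZeroDivisors.ne_zero q.2
  have hqF : algebraMap k[T;T⁻¹] F q ≠ 0 := by
    intro h0
    apply hq0
    apply IsFractionRing.injective k[T;T⁻¹] F
    rw [h0, map_zero]
  let Lf : Fin d → Fin d → (ι → k[T;T⁻¹]) →ₗ[k[T;T⁻¹]] k[T;T⁻¹] :=
    fun i j => ∑ m : ι, (L (i, j, m)) • (LinearMap.proj m : (ι → k[T;T⁻¹]) →ₗ[k[T;T⁻¹]] k[T;T⁻¹])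
  have hLf : ∀ i j w, algebraMap k[T;T⁻¹] F (Lf i j w) =
      algebraMap k[T;T⁻¹] F q * lam i (((GF F G) ^ (j : ℕ)) (incl F w)) := by
    intro i j w
    have e1 : Lf i j w = ∑ m : ι, L (i, j, m) * w m := by
      show (∑ m : ι, (L (i, j, m)) • (LinearMap.proj m : (ι → k[T;T⁻¹]) →ₗ[k[T;T⁻¹]] k[T;T⁻¹])) w = _
      rw [LinearMap.sum_apply]
      rfl
    have e2 : incl F w = ∑ m : ι, (algebraMap k[T;T⁻¹] F (w m)) • (Pi.single m 1 : ι → F) := by
      ext m'
      rw [Finset.sum_apply, Finset.sum_eq_single m']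
      · rw [incl_apply, Pi.smul_apply, Pi.single_eq_same, smul_eq_mul, mul_one]
      · intro m _ hm
        rw [Pi.smul_apply, Pi.single_eq_of_ne hm.symm, smul_zero]
      · intro hm; exact absurd (Finset.mem_univ _) hm
    rw [e1, map_sum, e2, map_sum, map_sum, Finset.mul_sum]
    refine Finset.sum_congr rfl fun m _ => ?_
    rw [map_mul, map_smul, map_smul, hL (i, j, m), smul_eq_mul, Algebra.smul_def]
    ring
  have hdet : ∀ (w : ι → k[T;T⁻¹]) (hw : incl F w ∈ VV F G d w0),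
      algebraMap k[T;T⁻¹] F (Matrix.of fun i j => Lf i j w).det =
        (algebraMap k[T;T⁻¹] F q) ^ d * b.det (fun j : Fin d => (G' ^ (j : ℕ)) ⟨incl F w, hw⟩) := by
    intro w hw
    rw [RingHom.map_det, Module.Basis.det_apply]
    have e : (algebraMap k[T;T⁻¹] F).mapMatrix (Matrix.of fun i j => Lf i j w) =
        (algebraMap k[T;T⁻¹] F q) • b.toMatrix (fun j : Fin d => (G' ^ (j : ℕ)) ⟨incl F w, hw⟩) := by
      ext i j
      rw [RingHom.mapMatrix_apply, Matrix.map_apply, Matrix.of_apply, hLf, Matrix.smul_apply,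
        Module.Basis.toMatrix_apply, ← hlam', hG'pow, smul_eq_mul]
    rw [e, Matrix.det_smul, Fintype.card_fin]
  refine ⟨Lf, ?_, ?_⟩
  · intro w hw hV h0
    have h1 := hdet w hV
    rw [h0, map_zero] at h1
    have h2 : b.det (fun j : Fin d => (G' ^ (j : ℕ)) ⟨incl F w, hV⟩) = 0 := by
      rcases mul_eq_zero.1 h1.symm with h3 | h3
      · exact absurd h3 (pow_ne_zero _ hqF)
      · exact h3
    have hLI : LinearIndependent F (fun j : Fin d => (G' ^ (j : ℕ)) ⟨incl F w, hV⟩) := by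
      have h3 := h.li_of hw hV
      have h4 : (fun j : Fin d => incl F ((G ^ (j : ℕ)) w)) =
          (VV F G d w0).subtype ∘ (fun j : Fin d => (G' ^ (j : ℕ)) ⟨incl F w, hV⟩) := by
        ext j : 1
        rw [Function.comp_apply, Submodule.subtype_apply, hG'pow, GF_pow_incl]
      rw [h4] at h3
      exact LinearIndependent.of_comp _ h3
    have : Nonempty (Fin d) := ⟨⟨0, h.pos⟩⟩
    have hfr : Fintype.card (Fin d) = Module.finrank F (VV F G d w0) := by
      rw [Module.finrank_eq_card_basis b]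
    have hspan := hLI.span_eq_top_of_card_eq_finrank hfr
    have h5 := (Module.Basis.is_basis_iff_det b).1 ⟨hLI, hspan⟩
    rw [h2] at h5
    exact not_isUnit_zero h5
  · obtain ⟨x, y, hy, hxy⟩ := IsFractionRing.div_surjective k[T;T⁻¹] (LinearMap.det G')
    have hy0 : y ≠ 0 := nonZeroDivisors.ne_zero hy
    have hyF : algebraMap k[T;T⁻¹] F y ≠ 0 := by
      intro h0
      apply hy0
      apply IsFractionRing.injective k[T;T⁻¹] F
      rw [h0, map_zero]
    refine ⟨x, y, hy0, fun w hw => ?_⟩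
    apply IsFractionRing.injective k[T;T⁻¹] F
    have hGw : incl F (G w) ∈ VV F G d w0 := by rw [← GF_incl]; exact h.inv _ hw
    have e1 : (fun j : Fin d => (G' ^ (j : ℕ)) ⟨incl F (G w), hGw⟩) =
        G' ∘ (fun j : Fin d => (G' ^ (j : ℕ)) ⟨incl F w, hw⟩) := by
      ext j : 2
      rw [Function.comp_apply, hG'pow]
      show (GF F G ^ (j : ℕ)) (incl F (G w)) = GF F G ((((G' ^ (j : ℕ)) ⟨incl F w, hw⟩ : VV F G d w0) : ι → F))
      rw [hG'pow, ← GF_incl]
      show (GF F G ^ (j : ℕ)) (GF F G (incl F w)) = GF F G ((GF F G ^ (j : ℕ)) (incl F w))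
      rw [← Module.End.mul_apply, ← Module.End.mul_apply, ← pow_succ, ← pow_succ']
    rw [map_mul, map_mul, hdet _ hGw, hdet _ hw, e1, Module.Basis.det_comp, ← hxy]
    field_simp

end Pool.Agent.R290.RV
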