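import Pool.Agent.R290.RV.CADefs

/-!
The action of an abelian cellular automaton on characters.
-/

open Filter Topology

namespace Pool.Agent.R290.RV

variable {A : Type} [AddCommGroup A]

/-- translation -/
def sh (k : ℤ) (x : ℤ → A) : ℤ → A := fun i => x (i + k)

lemma sh_add (j k : ℤ) (x : ℤ → A) : sh j (sh k x) = sh (j + k) x := by
  ext i
  show x (i + j + k) = x (i + (j + k))
  rw [add_assoc]

lemma sh_zero (x : ℤ → A) : sh 0 x = x := by
  ext i
  show x (i + 0) = x i
  rw [add_zero]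

lemma chr_prod (c : ℤ →₀ AddChar A ℂ) (x : ℤ → A) : chr c x = c.prod fun i ψ => ψ (x i) := rfl

lemma chr_zero (x : ℤ → A) : chr 0 x = 1 := by
  rw [chr_prod, Finsupp.prod_zero_index]

lemma chr_add (c c' : ℤ →₀ AddChar A ℂ) (x : ℤ → A) : chr (c + c') x = chr c x * chr c' x := by
  rw [chr_prod, chr_prod, chr_prod, Finsupp.prod_add_index']
  · intro i; exact AddChar.zero_apply _
  · intro i ψ ψ'; exact AddChar.add_apply _ _ _

lemma chr_single (k : ℤ) (ψ : AddChar A ℂ) (x : ℤ → A) : chr (Finsupp.single k ψ) x = ψ (x k) := by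
  rw [chr_prod, Finsupp.prod_single_index]
  exact AddChar.zero_apply _

lemma chr_sum {α : Type*} (s : Finset α) (c : α → ℤ →₀ AddChar A ℂ) (x : ℤ → A) :
    chr (∑ i ∈ s, c i) x = ∏ i ∈ s, chr (c i) x := by
  classical
  induction s using Finset.induction_on with
  | empty => rw [Finset.sum_empty, Finset.prod_empty, chr_zero]
  | insert i s hi ih => rw [Finset.sum_insert hi, Finset.prod_insert hi, chr_add, ih]

lemma chr_pi_single (c : ℤ →₀ AddChar A ℂ) (k : ℤ) (a : A) : chr c (Pi.single k a) = c k a := by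
  induction c using Finsupp.induction_linear with
  | zero => rw [chr_zero]; exact (AddChar.zero_apply _).symm
  | add f g hf hg => rw [chr_add, hf, hg, Finsupp.add_apply, AddChar.add_apply]
  | single i ψ =>
    rw [chr_single, Pi.single_apply]
    by_cases h : i = k
    · rw [if_pos h, h, Finsupp.single_eq_same]
    · rw [if_neg h, Finsupp.single_eq_of_ne (Ne.symm h), AddChar.map_zero_eq_one, AddChar.zero_apply]

lemma chr_inj {c c' : ℤ →₀ AddChar A ℂ} (h : ∀ x, chr c x = chr c' x) : c = c' := by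
  ext k a
  rw [← chr_pi_single, h, chr_pi_single]

lemma chr_add_right (c : ℤ →₀ AddChar A ℂ) (x y : ℤ → A) : chr c (x + y) = chr c x * chr c y := by
  unfold chr
  rw [← Finset.prod_mul_distrib]
  exact Finset.prod_congr rfl fun i _ => AddChar.map_add_eq_mul _ _ _

lemma ac_sum {α : Type*} (s : Finset α) (ψ : AddChar A ℂ) (f : α → A) :
    ψ (∑ i ∈ s, f i) = ∏ i ∈ s, ψ (f i) := by
  classical
  induction s using Finset.induction_on with
  | empty => rw [Finset.sum_empty, Finset.prod_empty, AddChar.map_zero_eq_one]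
  | insert i s hi ih => rw [Finset.sum_insert hi, Finset.prod_insert hi, AddChar.map_add_eq_mul, ih]

/-- translation of characters -/
noncomputable def tr (n : ℤ) (c : ℤ →₀ AddChar A ℂ) : ℤ →₀ AddChar A ℂ :=
  Finsupp.equivMapDomain (Equiv.addRight n) c

lemma tr_apply (n : ℤ) (c : ℤ →₀ AddChar A ℂ) (m : ℤ) : tr n c m = c (m - n) := rfl

lemma tr_card (n : ℤ) (c : ℤ →₀ AddChar A ℂ) : (tr n c).support.card = c.support.card := by
  exact Finset.card_map _

lemma chr_tr (n : ℤ) (c : ℤ →₀ AddChar A ℂ) (x : ℤ → A) : chr (tr n c) x = chr c (sh n x) := by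
  induction c using Finsupp.induction_linear with
  | zero =>
    have : tr n (0 : ℤ →₀ AddChar A ℂ) = 0 := by
      ext m : 1
      rw [tr_apply]; rfl
    rw [this, chr_zero, chr_zero]
  | add f g hf hg =>
    have : tr n (f + g) = tr n f + tr n g := by
      ext m : 1
      rw [tr_apply]; rfl
    rw [this, chr_add, chr_add, hf, hg]
  | single i ψ =>
    have : tr n (Finsupp.single i ψ) = Finsupp.single (i + n) ψ := by
      unfold tr
      rw [Finsupp.equivMapDomain_single]; rfl
    rw [this, chr_single, chr_single]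
    rfl

variable [TopologicalSpace A] {F : (ℤ → A) → (ℤ → A)}

lemma AbelianCA.map_zero (h : AbelianCA F) : F 0 = 0 := by
  have := h.add 0 0
  rw [add_zero] at this
  exact (add_eq_left.1 this.symm)

lemma AbelianCA.sh (h : AbelianCA F) (k : ℤ) (x : ℤ → A) : F (sh k x) = RV.sh k (F x) := by
  have pos : ∀ n : ℕ, ∀ x, F (RV.sh n x) = RV.sh n (F x) := by
    intro n
    induction n with
    | zero => intro x; rw [Nat.cast_zero, sh_zero, sh_zero]
    | succ n ih =>
      intro x
      have e : ∀ y : ℤ → A, RV.sh ((n + 1 : ℕ) : ℤ) y = shf (RV.sh n y) := by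
        intro y
        ext i
        show y (i + ((n + 1 : ℕ) : ℤ)) = y (i + 1 + n)
        congr 1
        push_cast; ring
      rw [e, h.comm, ih, e]
  rcases Int.eq_nat_or_neg k with ⟨n, rfl | rfl⟩
  · exact pos n x
  · have h1 := pos n (RV.sh (-(n : ℤ)) x)
    rw [sh_add, add_neg_cancel, sh_zero] at h1
    rw [h1, sh_add, neg_add_cancel, sh_zero]

/-- the local rule -/
lemma AbelianCA.local [DiscreteTopology A] (h : AbelianCA F) :
    ∃ (N : Finset ℤ) (φ : ℤ → A →+ A), ∀ x, F x 0 = ∑ i ∈ N, φ i (x i) := by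
  let φ : ℤ → A →+ A := fun i =>
    { toFun := fun a => F (Pi.single i a) 0
      map_zero' := by
        show F (Pi.single i 0) 0 = 0
        rw [Pi.single_zero, h.map_zero]; rfl
      map_add' := fun a b => by
        show F (Pi.single i (a + b)) 0 = _
        rw [Pi.single_add, h.add]; rfl }
  have hopen : IsOpen {x : ℤ → A | F x 0 = 0} := by
    have hc : Continuous fun x : ℤ → A => F x 0 := (continuous_apply 0).comp h.cont
    exact (isOpen_discrete {(0 : A)}).preimage hc
  obtain ⟨N, u, hu, hN⟩ := isOpen_pi_iff.1 hopen 0 (by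
    show F 0 0 = 0
    rw [h.map_zero]; rfl)
  refine ⟨N, φ, fun x => ?_⟩
  have h1 : F (x - ∑ i ∈ N, Pi.single i (x i)) 0 = 0 := by
    apply hN
    intro i hi
    have : (x - ∑ i ∈ N, Pi.single i (x i)) i = 0 := by
      rw [Pi.sub_apply, Finset.sum_apply, Finset.sum_eq_single i]
      · rw [Pi.single_eq_same, sub_self]
      · intro j _ hj
        rw [Pi.single_eq_of_ne hj.symm]
      · intro h2; exact absurd hi h2
    rw [this]
    exact (hu i hi).2
  have hsum : ∀ s : Finset ℤ, F (∑ i ∈ s, Pi.single i (x i)) 0 = ∑ i ∈ s, φ i (x i) := by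
    classical
    intro s
    induction s using Finset.induction_on with
    | empty => rw [Finset.sum_empty, Finset.sum_empty, h.map_zero]; rfl
    | insert i s hi ih =>
      rw [Finset.sum_insert hi, Finset.sum_insert hi, h.add, Pi.add_apply, ih]; rfl
  have h2 := h.add (x - ∑ i ∈ N, Pi.single i (x i)) (∑ i ∈ N, Pi.single i (x i))
  rw [sub_add_cancel] at h2
  rw [h2, Pi.add_apply, h1, zero_add, hsum]

lemma AbelianCA.exists_dual [DiscreteTopology A] (h : AbelianCA F) (c : ℤ →₀ AddChar A ℂ) :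
    ∃ c' : ℤ →₀ AddChar A ℂ, ∀ x, chr c' x = chr c (F x) := by
  obtain ⟨N, φ, hφ⟩ := h.local
  induction c using Finsupp.induction_linear with
  | zero => exact ⟨0, fun x => by rw [chr_zero, chr_zero]⟩
  | add f g hf hg =>
    obtain ⟨f', hf'⟩ := hf
    obtain ⟨g', hg'⟩ := hg
    exact ⟨f' + g', fun x => by rw [chr_add, chr_add, hf', hg']⟩
  | single k ψ =>
    refine ⟨∑ i ∈ N, Finsupp.single (i + k) (ψ.compAddMonoidHom (φ i)), fun x => ?_⟩
    have h1 : F x k = ∑ i ∈ N, φ i (x (i + k)) := by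
      have h2 := hφ (RV.sh k x)
      rw [h.sh] at h2
      have h3 : RV.sh k (F x) 0 = F x k := by
        show F x (0 + k) = F x k
        rw [zero_add]
      rw [h3] at h2
      exact h2
    rw [chr_sum, chr_single, h1, ac_sum]
    refine Finset.prod_congr rfl fun i _ => ?_
    rw [chr_single]; rfl

/-- the dual map -/
noncomputable def dl [DiscreteTopology A] (h : AbelianCA F) (c : ℤ →₀ AddChar A ℂ) :
    ℤ →₀ AddChar A ℂ := (h.exists_dual c).choose

lemma chr_dl [DiscreteTopology A] (h : AbelianCA F) (c : ℤ →₀ AddChar A ℂ) (x : ℤ → A) :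
    chr (dl h c) x = chr c (F x) := (h.exists_dual c).choose_spec x

lemma dl_add [DiscreteTopology A] (h : AbelianCA F) (c c' : ℤ →₀ AddChar A ℂ) :
    dl h (c + c') = dl h c + dl h c' := by
  apply chr_inj
  intro x
  rw [chr_dl, chr_add, chr_add, chr_dl, chr_dl]

lemma dl_zero [DiscreteTopology A] (h : AbelianCA F) : dl h 0 = 0 := by
  apply chr_inj
  intro x
  rw [chr_dl, chr_zero, chr_zero]

lemma dl_nsmul [DiscreteTopology A] (h : AbelianCA F) (n : ℕ) (c : ℤ →₀ AddChar A ℂ) :
    dl h (n • c) = n • dl h c := by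
  exact map_nsmul (AddMonoidHom.mk' (dl h) (dl_add h)) n c

lemma dl_tr [DiscreteTopology A] (h : AbelianCA F) (n : ℤ) (c : ℤ →₀ AddChar A ℂ) :
    dl h (tr n c) = tr n (dl h c) := by
  apply chr_inj
  intro x
  rw [chr_dl, chr_tr, chr_tr, chr_dl, h.sh]

lemma dl_iter [DiscreteTopology A] (h : AbelianCA F) (t : ℕ) (c : ℤ →₀ AddChar A ℂ) (x : ℤ → A) :
    chr ((dl h)^[t] c) x = chr c (F^[t] x) := by
  induction t generalizing x with
  | zero => rfl
  | succ t ih =>
    rw [Function.iterate_succ_apply', chr_dl, ih, Function.iterate_succ_apply]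

lemma dl_inv [DiscreteTopology A] {E : (ℤ → A) → (ℤ → A)} (h : AbelianCA F) (h' : AbelianCA E)
    (hFE : ∀ x, F (E x) = x) (c : ℤ →₀ AddChar A ℂ) : dl h' (dl h c) = c := by
  apply chr_inj
  intro x
  rw [chr_dl, chr_dl, hFE]

lemma AbelianCA.inverse [Finite A] [DiscreteTopology A] (h : AbelianCA F) (hb : Function.Bijective F) :
    ∃ E : (ℤ → A) → (ℤ → A), AbelianCA E ∧ (∀ x, F (E x) = x) ∧ ∀ x, E (F x) = x := by
  let e : (ℤ → A) ≃ (ℤ → A) := Equiv.ofBijective F hb
  have h1 : ∀ x, F (e.symm x) = x := fun x => e.apply_symm_apply x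
  have h2 : ∀ x, e.symm (F x) = x := fun x => e.symm_apply_apply x
  refine ⟨e.symm, ⟨?_, fun x => ?_, fun x y => ?_⟩, h1, h2⟩
  · exact Continuous.continuous_symm_of_equiv_compact_to_t2 (f := e) h.cont
  · apply hb.1
    rw [h1, h.comm, h1]
  · apply hb.1
    rw [h1, h.add, h1, h1]

end Pool.Agent.R290.RV
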