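import Pool.Agent.R290.RV.Lo

/-!
Limits of sparse vectors along an ultrafilter and the lowest exponent of a determinant.
-/

open LaurentPolynomial Filter

namespace Pool.Agent.R290.RV

variable {k : Type} [Field k] {ι : Type} [Fintype ι]

/-- the exponents occurring in a vector -/
noncomputable def vs (w : ι → k[T;T⁻¹]) : Finset ℤ := Finset.univ.biUnion fun i => (w i).coeff.support

lemma mem_vs {w : ι → k[T;T⁻¹]} {m : ℤ} : m ∈ vs w ↔ ∃ i, (w i).coeff m ≠ 0 := by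
  unfold vs
  simp [Finsupp.mem_support_iff]

lemma exists_N {w : ι → k[T;T⁻¹]} (hw : w ≠ 0) :
    ∃ N : ℤ, (∀ i, Lo N (w i)) ∧ ∃ i, (w i).coeff N ≠ 0 := by
  have hne : (vs w).Nonempty := by
    obtain ⟨i, hi⟩ := Function.ne_iff.1 hw
    obtain ⟨m, hm⟩ := supp_ne hi
    exact ⟨m, mem_vs.2 ⟨i, Finsupp.mem_support_iff.1 hm⟩⟩
  refine ⟨(vs w).min' hne, fun i m hm => ?_, mem_vs.1 (Finset.min'_mem _ _)⟩
  by_contra h
  have := Finset.min'_le (vs w) m (mem_vs.2 ⟨i, h⟩)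
  omega

lemma exists_limit [Finite k] (U : Ultrafilter ℕ) (r : ℕ) (f : ℕ → ι → k[T;T⁻¹]) (N : ℕ → ℤ)
    (hN' : ∀ t, ∃ i, (f t i).coeff (N t) ≠ 0) (hr : ∀ᶠ t in (U : Filter ℕ), (vs (f t)).card ≤ r) :
    ∃ g : ι → k[T;T⁻¹], g ≠ 0 ∧
      ∀ m : ℤ, ∀ᶠ t in (U : Filter ℕ), ∀ i, (f t i).coeff (N t + m) = (g i).coeff m := by
  have h1 : ∀ m : ℤ, ∃ c : ι → k, ∀ᶠ t in (U : Filter ℕ), (fun i => (f t i).coeff (N t + m)) = c := by
    intro m
    obtain ⟨c, hc⟩ := Ultrafilter.eq_pure_of_finite (U.map (fun t => fun i => (f t i).coeff (N t + m)))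
    refine ⟨c, ?_⟩
    have h2 : {c} ∈ U.map (fun t => fun i => (f t i).coeff (N t + m)) := by
      rw [hc]; exact Ultrafilter.mem_pure.2 rfl
    exact h2
  choose c hc using h1
  have hfin : {m : ℤ | c m ≠ 0}.Finite := by
    by_contra hinf
    obtain ⟨s, hs, hcard⟩ := Set.Infinite.exists_subset_card_eq hinf (r + 1)
    have h2 : ∀ᶠ t in (U : Filter ℕ), ∀ m ∈ s, (fun i => (f t i).coeff (N t + m)) = c m :=
      (Filter.eventually_all_finset s).2 fun m _ => hc m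
    obtain ⟨t, ht1, ht2⟩ := (h2.and hr).exists
    have h3 : s.image (fun m => N t + m) ⊆ vs (f t) := by
      intro m hm
      obtain ⟨m', hm', rfl⟩ := Finset.mem_image.1 hm
      obtain ⟨i, hi⟩ := Function.ne_iff.1 (hs hm' : c m' ≠ 0)
      refine mem_vs.2 ⟨i, ?_⟩
      rw [show (f t i).coeff (N t + m') = c m' i from congrFun (ht1 m' hm') i]
      exact hi
    have h4 := Finset.card_le_card h3
    rw [Finset.card_image_of_injective _ (add_right_injective (N t)), hcard] at h4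
    omega
  have hfin' : ∀ i, (Function.support fun m => c m i).Finite := by
    intro i
    refine hfin.subset fun m hm h => hm ?_
    show c m i = 0
    rw [h]; rfl
  refine ⟨fun i => AddMonoidAlgebra.ofCoeff (Finsupp.ofSupportFinite (fun m => c m i) (hfin' i)), ?_, ?_⟩
  · intro h
    obtain ⟨t, ht⟩ := (hc 0).exists
    obtain ⟨i, hi⟩ := hN' t
    apply hi
    have h2 : (f t i).coeff (N t + 0) = c 0 i := congrFun ht i
    rw [add_zero] at h2
    rw [h2]
    have h3 := congrArg (fun r : k[T;T⁻¹] => r.coeff 0) (congrFun h i)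
    exact h3
  · intro m
    filter_upwards [hc m] with t ht
    intro i
    exact congrFun ht i

lemma limit_Lo {U : Ultrafilter ℕ} {f : ℕ → ι → k[T;T⁻¹]} {N : ℕ → ℤ} {g : ι → k[T;T⁻¹]}
    (hN : ∀ t i, Lo (N t) (f t i))
    (hg : ∀ m : ℤ, ∀ᶠ t in (U : Filter ℕ), ∀ i, (f t i).coeff (N t + m) = (g i).coeff m) (K : ℕ) :
    ∀ᶠ t in (U : Filter ℕ), ∀ i, Lo (K : ℤ) (T (-N t) * f t i - g i) := by
  have h0 : ∀ i, Lo 0 (g i) := by
    intro i m hm
    obtain ⟨t, ht⟩ := (hg m).exists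
    rw [← ht i]
    exact hN t i _ (by omega)
  have h1 : ∀ᶠ t in (U : Filter ℕ), ∀ m ∈ Finset.range K, ∀ i,
      (f t i).coeff (N t + (m : ℤ)) = (g i).coeff (m : ℤ) :=
    (Filter.eventually_all_finset _).2 fun m _ => hg m
  filter_upwards [h1] with t ht
  intro i m hm
  rw [AddMonoidAlgebra.coeff_sub, Finsupp.sub_apply, coeff_T_mul]
  by_cases hm0 : 0 ≤ m
  · have := ht m.toNat (Finset.mem_range.2 (by omega)) i
    rw [Int.toNat_of_nonneg hm0] at this
    rw [show m - -N t = N t + m by ring, this, sub_self]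
  · rw [h0 i m (by omega), hN t i _ (by omega), sub_zero]

lemma lin_Lo [DecidableEq ι] (l : (ι → k[T;T⁻¹]) →ₗ[k[T;T⁻¹]] k[T;T⁻¹]) :
    ∃ C : ℕ, ∀ (K : ℤ) (v : ι → k[T;T⁻¹]), (∀ i, Lo K (v i)) → Lo (K - C) (l v) := by
  obtain ⟨C, hC⟩ := exists_Lo_fin fun i => l (Pi.single i 1)
  refine ⟨C, fun K v hv => ?_⟩
  rw [LinearMap.pi_apply_eq_sum_univ l v]
  refine Lo.sum fun i _ => ?_
  rw [smul_eq_mul]
  have e : (fun j => if i = j then (1 : k[T;T⁻¹]) else 0) = Pi.single i 1 := by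
    ext j : 1
    rw [Pi.single_apply]
    by_cases h : i = j
    · rw [if_pos h, if_pos h.symm]
    · rw [if_neg h, if_neg (Ne.symm h)]
  rw [e, sub_eq_add_neg]
  exact (hv i).mul (hC i)

theorem endlem [Finite k] [DecidableEq ι] {d : ℕ} (U : Ultrafilter ℕ) (r : ℕ) (f : ℕ → ι → k[T;T⁻¹])
    (hf : ∀ t, f t ≠ 0) (hr : ∀ᶠ t in (U : Filter ℕ), (vs (f t)).card ≤ r)
    (Lf : Fin d → Fin d → (ι → k[T;T⁻¹]) →ₗ[k[T;T⁻¹]] k[T;T⁻¹])
    (Ann : Set ((ι → k[T;T⁻¹]) →ₗ[k[T;T⁻¹]] k[T;T⁻¹])) (hA : ∀ l ∈ Ann, ∀ t, l (f t) = 0)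
    (hne : ∀ w, w ≠ 0 → (∀ l ∈ Ann, l w = 0) → (Matrix.of fun i j => Lf i j w).det ≠ 0) :
    ∃ (N : ℕ → ℤ) (o : ℤ) (g : ι → k[T;T⁻¹]), (∀ t i, Lo (N t) (f t i)) ∧
      (∀ m : ℤ, ∀ᶠ t in (U : Filter ℕ), ∀ i, (f t i).coeff (N t + m) = (g i).coeff m) ∧ g ≠ 0 ∧
      ∀ᶠ t in (U : Filter ℕ), lo (Matrix.of fun i j => Lf i j (f t)).det = d * N t + o := by
  choose N hN hN' using fun t => exists_N (hf t)
  obtain ⟨g, hg0, hg⟩ := exists_limit U r f N hN' hr
  have hgA : ∀ l ∈ Ann, l g = 0 := by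
    intro l hl
    obtain ⟨C, hC⟩ := lin_Lo l
    apply Lo_all
    intro K
    obtain ⟨t, ht⟩ := (limit_Lo hN hg (K + C)).exists
    have h1 := hC _ _ ht
    have h2 : l (fun i => T (-N t) * f t i - g i) = - l g := by
      have e : (fun i => T (-N t) * f t i - g i) = (T (-N t) : k[T;T⁻¹]) • f t - g := rfl
      rw [e, map_sub, map_smul, hA l hl t, smul_zero, zero_sub]
    rw [h2] at h1
    have h3 := h1.neg
    rw [neg_neg] at h3
    exact h3.mono (by push_cast; omega)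
  have hdet := hne g hg0 hgA
  set A : Matrix (Fin d) (Fin d) k[T;T⁻¹] := Matrix.of fun i j => Lf i j g with hAdef
  obtain ⟨c, hc⟩ := exists_Lo_fin fun ij : Fin d × Fin d => A ij.1 ij.2
  have hC : ∃ C : ℕ, ∀ i j, ∀ (K : ℤ) (v : ι → k[T;T⁻¹]), (∀ i, Lo K (v i)) → Lo (K - C) (Lf i j v) := by
    choose C hC using fun ij : Fin d × Fin d => lin_Lo (Lf ij.1 ij.2)
    refine ⟨∑ ij, C ij, fun i j K v hv => ?_⟩
    refine (hC (i, j) K v hv).mono ?_
    have : C (i, j) ≤ ∑ ij, C ij :=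
      Finset.single_le_sum (f := C) (fun _ _ => Nat.zero_le _) (Finset.mem_univ (i, j))
    omega
  obtain ⟨C, hC⟩ := hC
  refine ⟨N, lo A.det, g, hN, hg, hg0, ?_⟩
  filter_upwards [limit_Lo hN hg (C + c * d + (lo A.det).natAbs + 1)] with t ht
  set K : ℤ := ((C + c * d + (lo A.det).natAbs + 1 : ℕ) : ℤ) with hK
  set B : Matrix (Fin d) (Fin d) k[T;T⁻¹] :=
    Matrix.of fun i j => Lf i j (fun i => T (-N t) * f t i - g i) with hB
  have hB1 : ∀ i j, Lo (K - C) (B i j) := fun i j => hC i j _ _ ht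
  have hKC : 0 ≤ K - C := by
    rw [hK]; push_cast
    have : (0 : ℤ) ≤ (c : ℤ) * d := by positivity
    have := abs_nonneg (lo A.det)
    linarith
  have h1 := Lo_det_sub (A := A) (B := B) (c := c) (K := K - C) (by positivity) hKC
    (fun i j => hc (i, j)) hB1
  have h2 : lo A.det < K - C - c * d := by
    rw [hK]; push_cast
    have := le_abs_self (lo A.det)
    linarith
  have h3 : lo (A + B).det = lo A.det := by
    have e : (A + B).det = A.det + ((A + B).det - A.det) := by ring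
    apply lo_eq
    · rw [e]
      exact (lo_Lo _).add (h1.mono h2.le)
    · rw [e, AddMonoidAlgebra.coeff_add, Finsupp.add_apply, h1 _ h2, add_zero]
      exact lo_ne hdet
  have h4 : A + B = (T (-N t) : k[T;T⁻¹]) • (Matrix.of fun i j => Lf i j (f t)) := by
    ext i j : 1
    rw [Matrix.add_apply, Matrix.smul_apply, hAdef, hB, Matrix.of_apply, Matrix.of_apply,
      Matrix.of_apply, ← map_add, ← map_smul]
    congr 1
    ext i : 1
    rw [Pi.add_apply, Pi.smul_apply, smul_eq_mul]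
    ring
  have h5 : (Matrix.of fun i j => Lf i j (f t)).det ≠ 0 := by
    intro h6
    rw [h4, Matrix.det_smul, h6, mul_zero] at h3
    have h7 : (A + B).det ≠ 0 := by
      have e : (A + B).det = A.det + ((A + B).det - A.det) := by ring
      intro h8
      have h9 : (A + B).det.coeff (lo A.det) ≠ 0 := by
        rw [e, AddMonoidAlgebra.coeff_add, Finsupp.add_apply, h1 _ h2, add_zero]
        exact lo_ne hdet
      rw [h8] at h9
      exact h9 (by simp)
    apply h7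
    rw [h4, Matrix.det_smul, h6, mul_zero]
  rw [h4, Matrix.det_smul, Fintype.card_fin, T_pow, lo_T_mul _ h5] at h3
  linarith

end Pool.Agent.R290.RV
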