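import Pool.Agent.R290.RV.Dual

/-!
Measure theory: Fourier coefficients and weak convergence.
-/

open MeasureTheory Filter Topology

namespace Pool.Agent.R290.RV

variable {A : Type} [AddCommGroup A] [Finite A] [TopologicalSpace A] [DiscreteTopology A]
  [MeasurableSpace A] [DiscreteMeasurableSpace A]

omit [Finite A] [MeasurableSpace A] [DiscreteMeasurableSpace A] in
lemma chr_cont (c : ℤ →₀ AddChar A ℂ) : Continuous (chr c : (ℤ → A) → ℂ) := by
  unfold chr
  refine continuous_finsetProd _ fun i _ => ?_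
  exact (continuous_of_discreteTopology (f := (c i : A → ℂ))).comp (continuous_apply i)

/-- characters as continuous maps -/
noncomputable def chrC (c : ℤ →₀ AddChar A ℂ) : C(ℤ → A, ℂ) := ⟨chr c, chr_cont c⟩

omit [Finite A] [MeasurableSpace A] [DiscreteMeasurableSpace A] in
lemma chrC_mul (c c' : ℤ →₀ AddChar A ℂ) : chrC c * chrC c' = chrC (c + c') := by
  ext x
  exact (chr_add c c' x).symm

omit [MeasurableSpace A] [DiscreteMeasurableSpace A] in
lemma chrC_star (c : ℤ →₀ AddChar A ℂ) : ∃ c' : ℤ →₀ AddChar A ℂ, star (chrC c) = chrC c' := by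
  have h : ∃ c' : ℤ →₀ AddChar A ℂ, ∀ x, star (chr c x) = chr c' x := by
    induction c using Finsupp.induction_linear with
    | zero => exact ⟨0, fun x => by rw [chr_zero, star_one]⟩
    | add f g hf hg =>
      obtain ⟨f', hf⟩ := hf
      obtain ⟨g', hg⟩ := hg
      exact ⟨f' + g', fun x => by rw [chr_add, chr_add, star_mul', hf, hg]⟩
    | single i ψ =>
      refine ⟨Finsupp.single i (-ψ), fun x => ?_⟩
      rw [chr_single, chr_single, AddChar.neg_apply]
      exact (AddChar.map_neg_eq_conj ψ (x i)).symm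
  obtain ⟨c', hc'⟩ := h
  refine ⟨c', ?_⟩
  ext x
  exact hc' x

variable (A) in
/-- trigonometric polynomials -/
noncomputable def tsp : Submodule ℂ C(ℤ → A, ℂ) :=
  Submodule.span ℂ (Set.range (chrC : (ℤ →₀ AddChar A ℂ) → C(ℤ → A, ℂ)))

omit [Finite A] [MeasurableSpace A] [DiscreteMeasurableSpace A] in
lemma tsp_mul {a b : C(ℤ → A, ℂ)} (h1 : a ∈ tsp A) (h2 : b ∈ tsp A) : a * b ∈ tsp A := by
  have h3 : a * b ∈ tsp A * tsp A := Submodule.mul_mem_mul h1 h2
  unfold tsp at h3 ⊢
  rw [Submodule.span_mul_span] at h3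
  refine Submodule.span_mono ?_ h3
  rintro _ ⟨_, ⟨c, rfl⟩, _, ⟨c', rfl⟩, rfl⟩
  exact ⟨c + c', (chrC_mul c c').symm⟩

omit [Finite A] [MeasurableSpace A] [DiscreteMeasurableSpace A] in
lemma tsp_alg (r : ℂ) : algebraMap ℂ C(ℤ → A, ℂ) r ∈ tsp A := by
  have : algebraMap ℂ C(ℤ → A, ℂ) r = r • chrC 0 := by
    ext x
    show r = r * chr 0 x
    rw [chr_zero, mul_one]
  rw [this]
  exact Submodule.smul_mem _ _ (Submodule.subset_span ⟨0, rfl⟩)

omit [MeasurableSpace A] [DiscreteMeasurableSpace A] in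
lemma tsp_star {a : C(ℤ → A, ℂ)} (ha : a ∈ tsp A) : star a ∈ tsp A := by
  unfold tsp at ha
  induction ha using Submodule.span_induction with
  | mem x hx =>
    obtain ⟨c, rfl⟩ := hx
    obtain ⟨c', hc'⟩ := chrC_star c
    rw [hc']
    exact Submodule.subset_span ⟨_, rfl⟩
  | zero => rw [star_zero]; exact Submodule.zero_mem _
  | add x y _ _ hx hy => rw [star_add]; exact Submodule.add_mem _ hx hy
  | smul r x _ hx => rw [star_smul]; exact Submodule.smul_mem _ _ hx

variable (A) in
/-- trigonometric polynomials as a star subalgebra -/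
noncomputable def trig : StarSubalgebra ℂ C(ℤ → A, ℂ) where
  carrier := (tsp A : Set C(ℤ → A, ℂ))
  add_mem' := fun h1 h2 => (tsp A).add_mem h1 h2
  mul_mem' := fun h1 h2 => tsp_mul h1 h2
  algebraMap_mem' := tsp_alg
  star_mem' := fun h => tsp_star h

omit [MeasurableSpace A] [DiscreteMeasurableSpace A] in
lemma trig_sep : (trig A).SeparatesPoints := by
  intro x y hxy
  obtain ⟨k, hk⟩ := Function.ne_iff.1 hxy
  have h1 : x k - y k ≠ 0 := sub_ne_zero.2 hk
  obtain ⟨ψ, hψ⟩ := AddChar.exists_apply_ne_zero.2 h1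
  have hmem : chrC (Finsupp.single k ψ) ∈ trig A := Submodule.subset_span ⟨_, rfl⟩
  refine ⟨_, ⟨chrC (Finsupp.single k ψ), hmem, rfl⟩, ?_⟩
  show chr (Finsupp.single k ψ) x ≠ chr (Finsupp.single k ψ) y
  rw [chr_single, chr_single]
  intro h
  apply hψ
  rw [AddChar.map_sub_eq_div, h, div_self]
  intro h0
  have h3 := AddChar.map_add_eq_mul ψ (y k) (-(y k))
  rw [add_neg_cancel, h0, zero_mul, AddChar.map_zero_eq_one] at h3
  exact one_ne_zero h3

lemma int_cont {μ : Measure (ℤ → A)} [IsFiniteMeasure μ] {f : (ℤ → A) → ℂ} (hf : Continuous f)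
    {C : ℝ} (hC : ∀ x, ‖f x‖ ≤ C) : Integrable f μ :=
  Integrable.of_bound hf.aestronglyMeasurable C (Eventually.of_forall hC)

/-- Convergence of Fourier coefficients implies weak convergence. -/
theorem weak_of_fourier {ν : Measure (ℤ → A)} [IsProbabilityMeasure ν] {μ : ℕ → Measure (ℤ → A)}
    [∀ t, IsProbabilityMeasure (μ t)] {L : Filter ℕ}
    (h : ∀ c : ℤ →₀ AddChar A ℂ, Tendsto (fun t => ∫ x, chr c x ∂(μ t)) L (𝓝 (∫ x, chr c x ∂ν)))
    (f : C(ℤ → A, ℝ)) : Tendsto (fun t => ∫ x, f x ∂(μ t)) L (𝓝 (∫ x, f x ∂ν)) := by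
  have hint : ∀ (g : C(ℤ → A, ℂ)) (ρ : Measure (ℤ → A)) [IsProbabilityMeasure ρ], Integrable g ρ :=
    fun g ρ _ => int_cont g.continuous (C := ‖g‖) (fun x => g.norm_coe_le_norm x)
  -- trigonometric polynomials
  have htrig : ∀ g ∈ tsp A,
      Tendsto (fun t => ∫ x, g x ∂(μ t)) L (𝓝 (∫ x, g x ∂ν)) := by
    intro g hg
    unfold tsp at hg
    induction hg using Submodule.span_induction with
    | mem x hx =>
      obtain ⟨c, rfl⟩ := hx
      exact h c
    | zero =>
      simp only [ContinuousMap.zero_apply, integral_zero]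
      exact tendsto_const_nhds
    | add x y _ _ hx hy =>
      have h1 : ∀ (ρ : Measure (ℤ → A)) [IsProbabilityMeasure ρ],
          ∫ z, (x + y) z ∂ρ = ∫ z, x z ∂ρ + ∫ z, y z ∂ρ := fun ρ _ => integral_add (hint x ρ) (hint y ρ)
      rw [h1]
      refine (hx.add hy).congr fun t => (h1 (μ t)).symm
    | smul r x _ hx =>
      have h1 : ∀ (ρ : Measure (ℤ → A)) [IsProbabilityMeasure ρ],
          ∫ z, (r • x) z ∂ρ = r • ∫ z, x z ∂ρ := fun ρ _ => integral_smul r _
      rw [h1]
      refine (hx.const_smul r).congr fun t => (h1 (μ t)).symm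
  have hall : ∀ g : C(ℤ → A, ℂ), Tendsto (fun t => ∫ x, g x ∂(μ t)) L (𝓝 (∫ x, g x ∂ν)) := by
    intro g
    have hcl : g ∈ (trig A).topologicalClosure := by
      rw [ContinuousMap.starSubalgebra_topologicalClosure_eq_top_of_separatesPoints _ trig_sep]
      exact trivial
    have hcl' : g ∈ closure ((trig A : StarSubalgebra ℂ C(ℤ → A, ℂ)) : Set C(ℤ → A, ℂ)) := hcl
    rw [Metric.tendsto_nhds]
    intro ε hε
    obtain ⟨q, hq, hgq⟩ := Metric.mem_closure_iff.1 hcl' (ε / 3) (by positivity)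
    have h1 := Metric.tendsto_nhds.1 (htrig q hq) (ε / 3) (by positivity)
    have hest : ∀ (ρ : Measure (ℤ → A)) [IsProbabilityMeasure ρ],
        dist (∫ x, g x ∂ρ) (∫ x, q x ∂ρ) ≤ ε / 3 := by
      intro ρ _
      rw [dist_eq_norm, ← integral_sub (hint g ρ) (hint q ρ)]
      have h2 := norm_integral_le_of_norm_le_const (μ := ρ) (f := fun x => g x - q x) (C := ε / 3)
        (Eventually.of_forall fun x => by
          rw [← dist_eq_norm]
          exact (ContinuousMap.dist_apply_le_dist x).trans hgq.le)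
      simpa using h2
    filter_upwards [h1] with t ht
    calc dist (∫ x, g x ∂(μ t)) (∫ x, g x ∂ν)
        ≤ dist (∫ x, g x ∂(μ t)) (∫ x, q x ∂(μ t)) + dist (∫ x, q x ∂(μ t)) (∫ x, q x ∂ν)
          + dist (∫ x, q x ∂ν) (∫ x, g x ∂ν) := dist_triangle4 _ _ _ _
      _ < ε / 3 + ε / 3 + ε / 3 := by
          have h3 := hest (μ t)
          have h4 := hest ν
          rw [dist_comm] at h4
          linarith
      _ = ε := by ring
  let fC : C(ℤ → A, ℂ) := ⟨fun x => ((f x : ℝ) : ℂ), by fun_prop⟩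
  have h1 := hall fC
  have h2 : ∀ ρ : Measure (ℤ → A), ∫ x, fC x ∂ρ = ((∫ x, f x ∂ρ : ℝ) : ℂ) := fun ρ => integral_ofReal
  rw [h2] at h1
  simp only [h2] at h1
  have h3 := (Complex.continuous_re.tendsto _).comp h1
  simpa [Function.comp_def] using h3

instance haar_prob : IsProbabilityMeasure (haar A) := by
  unfold haar
  constructor
  have := Measure.addHaarMeasure_self (K₀ := (⊤ : TopologicalSpace.PositiveCompacts (ℤ → A)))
  exact this

lemma haar_chr {c : ℤ →₀ AddChar A ℂ} (hc : c ≠ 0) : ∫ x, chr c x ∂(haar A) = 0 := by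
  obtain ⟨k, hk⟩ := DFunLike.ne_iff.1 hc
  obtain ⟨a, ha⟩ := DFunLike.ne_iff.1 hk
  have ha' : c k a ≠ 1 := ha
  have h1 : ∫ x, chr c (Pi.single k a + x) ∂(haar A) = ∫ x, chr c x ∂(haar A) := by
    unfold haar
    exact integral_add_left_eq_self (μ := Measure.addHaarMeasure (⊤ : TopologicalSpace.PositiveCompacts (ℤ → A)))
      (fun x => chr c x) (Pi.single k a)
  have h2 : ∫ x, chr c (Pi.single k a + x) ∂(haar A) = c k a * ∫ x, chr c x ∂(haar A) := by
    rw [← integral_const_mul]
    congr 1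
    ext x
    rw [chr_add_right, chr_pi_single]
  rw [h2] at h1
  have h3 : (c k a - 1) * ∫ x, chr c x ∂(haar A) = 0 := by
    rw [sub_mul, one_mul, h1, sub_self]
  rcases mul_eq_zero.1 h3 with h4 | h4
  · exact absurd (sub_eq_zero.1 h4) ha'
  · exact h4

/-- weights of the one-dimensional marginal -/
noncomputable def wt (A : Type) [AddCommGroup A] (a : A) : ℝ :=
  open Classical in (if a = 0 then 1 / 2 else 0) + 1 / (2 * Nat.card A)

variable (A) in
/-- half Dirac, half uniform -/
noncomputable def eta : Measure A :=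
  open Classical in
  letI := Fintype.ofFinite A
  ∑ a : A, ENNReal.ofReal (wt A a) • Measure.dirac a

omit [TopologicalSpace A] [DiscreteTopology A] [MeasurableSpace A] [DiscreteMeasurableSpace A] [Finite A] in
lemma wt_nonneg (a : A) : 0 ≤ wt A a := by
  unfold wt
  have : (0 : ℝ) ≤ 1 / (2 * Nat.card A) := by positivity
  split_ifs <;> linarith

omit [TopologicalSpace A] [DiscreteTopology A] [MeasurableSpace A] [DiscreteMeasurableSpace A] [Finite A] in
lemma wt_sum [Fintype A] : ∑ a : A, wt A a = 1 := by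
  classical
  unfold wt
  rw [Finset.sum_add_distrib, Finset.sum_const, Finset.card_univ, Nat.card_eq_fintype_card]
  have h1 : (∑ x : A, @ite ℝ (x = 0) (Classical.propDecidable _) (1 / 2) 0) = 1 / 2 := by
    rw [Finset.sum_eq_single 0]
    · rw [if_pos rfl]
    · intro b _ hb; rw [if_neg hb]
    · intro h; exact absurd (Finset.mem_univ _) h
  rw [h1, nsmul_eq_mul]
  have h2 : (Fintype.card A : ℝ) ≠ 0 := by
    have : 0 < Fintype.card A := Fintype.card_pos
    positivity
  field_simp
  norm_num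

omit [TopologicalSpace A] [DiscreteTopology A] [DiscreteMeasurableSpace A] in
instance eta_prob : IsProbabilityMeasure (eta A) := by
  constructor
  unfold eta
  let _ := Fintype.ofFinite A
  rw [Measure.finsetSum_apply]
  simp only [Measure.smul_apply, measure_univ, smul_eq_mul, mul_one]
  rw [← ENNReal.ofReal_sum_of_nonneg fun a _ => wt_nonneg a, wt_sum, ENNReal.ofReal_one]

omit [TopologicalSpace A] [DiscreteTopology A] in
lemma eta_int {ψ : AddChar A ℂ} (hψ : ψ ≠ 0) : ∫ a, ψ a ∂(eta A) = 1 / 2 := by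
  classical
  unfold eta
  let _ := Fintype.ofFinite A
  rw [integral_finsetSum_measure]
  · have h1 : ∀ a : A, ∫ x, ψ x ∂(ENNReal.ofReal (wt A a) • Measure.dirac a) = (wt A a : ℂ) * ψ a := by
      intro a
      rw [integral_smul_measure, integral_dirac, ENNReal.toReal_ofReal (wt_nonneg a)]
      rfl
    rw [Finset.sum_congr rfl fun a _ => h1 a]
    have h2 : ∀ a : A, (wt A a : ℂ) * ψ a = (if a = 0 then 1 / 2 else 0) + (1 / (2 * Nat.card A)) * ψ a := by
      intro a
      unfold wt
      by_cases h : a = 0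
      · rw [h, if_pos rfl, if_pos rfl]
        push_cast
        rw [AddChar.map_zero_eq_one]; ring
      · rw [if_neg h, if_neg h]
        push_cast
        ring
    rw [Finset.sum_congr rfl fun a _ => h2 a, Finset.sum_add_distrib, ← Finset.mul_sum,
      AddChar.sum_eq_zero_iff_ne_zero.2 hψ, mul_zero, add_zero, Finset.sum_ite_eq' Finset.univ (0 : A),
      if_pos (Finset.mem_univ _)]
  · intro a _
    exact Integrable.smul_measure (integrable_dirac (by simp)) ENNReal.ofReal_ne_top

variable (A) in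
/-- the product measure -/
noncomputable def mu0 : Measure (ℤ → A) := Measure.infinitePi fun _ : ℤ => eta A

omit [TopologicalSpace A] [DiscreteTopology A] [DiscreteMeasurableSpace A] in
instance mu0_prob : IsProbabilityMeasure (mu0 A) := by
  unfold mu0; infer_instance

omit [TopologicalSpace A] [DiscreteTopology A] in
lemma mu0_chr (c : ℤ →₀ AddChar A ℂ) : ∫ x, chr c x ∂(mu0 A) = (1 / 2 : ℂ) ^ c.support.card := by
  obtain ⟨Φ, hΦ⟩ : ∃ Φ : ((i : c.support) → A) → ℂ, Φ = fun y => ∏ i : c.support, c i (y i) := ⟨_, rfl⟩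
  have h1 : (fun x : ℤ → A => chr c x) = fun x => Φ (c.support.restrict x) := by
    ext x
    rw [hΦ]
    unfold chr
    rw [← Finset.prod_coe_sort]
    rfl
  rw [h1]
  unfold mu0
  rw [integral_restrict_infinitePi]
  · rw [hΦ, integral_fintype_prod_eq_prod (fun (i : c.support) (a : A) => c i a)]
    have : ∀ i : c.support, ∫ a, c i a ∂(eta A) = 1 / 2 := fun i => eta_int (Finsupp.mem_support_iff.1 i.2)
    rw [Finset.prod_congr rfl fun i _ => this i, Finset.prod_const, Finset.card_univ, Fintype.card_coe]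
  · rw [hΦ]
    apply Measurable.aestronglyMeasurable
    refine Finset.measurable_fun_prod _ fun i _ => ?_
    exact (measurable_of_countable (f := fun a : A => c i a)).comp (measurable_pi_apply i)

omit [TopologicalSpace A] [DiscreteTopology A] in
lemma mu0_harm : HarmMix (mu0 A) := by
  intro ε hε
  obtain ⟨R, hR⟩ := exists_pow_lt_of_lt_one hε (show (1 / 2 : ℝ) < 1 by norm_num)
  refine ⟨R, fun c hc => ?_⟩
  rw [mu0_chr, norm_pow]
  have : ‖(1 / 2 : ℂ)‖ = 1 / 2 := by simp
  rw [this]
  exact (pow_le_pow_of_le_one (by norm_num) (by norm_num) hc.le).trans_lt hR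

/-- A set of lower density one contains arbitrarily large multiples of `s`. -/
lemma dens_mult {D : Set ℕ} (hD : DensityOne D) {s : ℕ} (hs : 0 < s) :
    ∃ᶠ t : ℕ in atTop, t ∈ D ∧ s ∣ t := by
  by_contra hcon
  rw [not_frequently] at hcon
  obtain ⟨M, hM⟩ := eventually_atTop.1 hcon
  have hlt : (1 - 1 / (2 * s) : ℝ) < liminf (fun n : ℕ => ((D ∩ Set.Iic n).ncard : ℝ) / n) atTop := by
    rw [hD]
    have : (0 : ℝ) < 1 / (2 * s) := by positivity
    linarith
  have hbd : IsBoundedUnder (· ≥ ·) atTop (fun n : ℕ => ((D ∩ Set.Iic n).ncard : ℝ) / n) :=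
    ⟨0, by
      rw [eventually_map]
      exact Eventually.of_forall fun n => by positivity⟩
  have hev := eventually_lt_of_lt_liminf hlt hbd
  obtain ⟨K, hK⟩ := eventually_atTop.1 hev
  set m := 2 * M + K + 1 with hm
  have h1 := hK (s * m) (by nlinarith)
  have hsub : D ∩ Set.Iic (s * m) ⊆ (((Finset.range (s * m + 1)) \ ((Finset.Icc M m).image fun j => s * j) :
      Finset ℕ) : Set ℕ) := by
    rintro t ⟨ht1, ht2⟩
    rw [Finset.mem_coe, Finset.mem_sdiff, Finset.mem_range]
    refine ⟨by have : t ≤ s * m := ht2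
               omega, fun hmem => ?_⟩
    obtain ⟨j, hj, rfl⟩ := Finset.mem_image.1 hmem
    rw [Finset.mem_Icc] at hj
    exact hM (s * j) (by nlinarith) ⟨ht1, ⟨j, rfl⟩⟩
  have h2 := Set.ncard_le_ncard hsub (Finset.finite_toSet _)
  rw [Set.ncard_coe_finset, Finset.card_sdiff_of_subset, Finset.card_range,
    Finset.card_image_of_injective _ (fun a b h => Nat.eq_of_mul_eq_mul_left hs h), Nat.card_Icc] at h2
  · have h3 : ((D ∩ Set.Iic (s * m)).ncard : ℝ) ≤ s * m - m + M := by
      have h4 : (D ∩ Set.Iic (s * m)).ncard + m ≤ s * m + M := by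
        have : m ≤ s * m := Nat.le_mul_of_pos_left m hs
        omega
      have h5 : ((D ∩ Set.Iic (s * m)).ncard : ℝ) + m ≤ s * m + M := by exact_mod_cast h4
      linarith
    have hs' : (0 : ℝ) < s := by exact_mod_cast hs
    have hm' : (0 : ℝ) < m := by
      have : 0 < m := by omega
      exact_mod_cast this
    have hmM : (2 : ℝ) * M ≤ m := by
      have : 2 * M ≤ m := by omega
      exact_mod_cast this
    push_cast at h1
    rw [lt_div_iff₀ (by positivity)] at h1
    have h6 : (1 - 1 / (2 * s) : ℝ) * (s * m) = s * m - m / 2 := by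
      field_simp
    rw [h6] at h1
    linarith
  · intro t ht
    obtain ⟨j, hj, rfl⟩ := Finset.mem_image.1 ht
    rw [Finset.mem_Icc] at hj
    rw [Finset.mem_range]
    nlinarith

end Pool.Agent.R290.RV
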