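import Pool.Agent.R290.RV.Link
import Pool.Agent.R290.RV.Meas

/-!
Reversible abelian cellular automata which are randomizing in density are strongly randomizing.
-/

open MeasureTheory Filter Topology

namespace Pool.Agent.R290.RV

variable {A : Type} [AddCommGroup A] [Finite A] [TopologicalSpace A] [DiscreteTopology A]
  [MeasurableSpace A] [DiscreteMeasurableSpace A] {F : (ℤ → A) → (ℤ → A)}

omit [Finite A] [DiscreteTopology A] [MeasurableSpace A] [DiscreteMeasurableSpace A] in
lemma iter_cont (hF : AbelianCA F) (t : ℕ) : Continuous (F^[t]) := hF.cont.iterate t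

lemma int_map (hF : AbelianCA F) (t : ℕ) (μ : Measure (ℤ → A)) (c : ℤ →₀ AddChar A ℂ) :
    ∫ x, chr c x ∂(μ.map (F^[t])) = ∫ x, chr ((dl hF)^[t] c) x ∂μ := by
  rw [integral_map (iter_cont hF t).measurable.aemeasurable (chr_cont c).aestronglyMeasurable]
  congr 1
  ext x
  rw [dl_iter]

lemma no_wave (hF : AbelianCA F) (hd : RandomizingInDensity F) {g : ℤ →₀ AddChar A ℂ} (hg : g ≠ 0)
    {s : ℕ} (hs : 0 < s) {m : ℤ} (hm : (dl hF)^[s] g = tr m g) : False := by
  obtain ⟨D, hD, hconv⟩ := hd (mu0 A) mu0_prob mu0_harm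
  have hiter : ∀ j : ℕ, ((dl hF)^[s * j] g).support.card = g.support.card := by
    intro j
    have h1 : ∀ j : ℕ, ∃ n : ℤ, (dl hF)^[s * j] g = tr n g := by
      intro j
      induction j with
      | zero =>
        refine ⟨0, ?_⟩
        ext k : 1
        rw [tr_apply, sub_zero]; rfl
      | succ j ih =>
        obtain ⟨n, hn⟩ := ih
        refine ⟨n + m, ?_⟩
        have h2 : ∀ (u : ℕ) (n : ℤ) (c : ℤ →₀ AddChar A ℂ), (dl hF)^[u] (tr n c) = tr n ((dl hF)^[u] c) := by
          intro u n c
          induction u with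
          | zero => rfl
          | succ u ih => rw [Function.iterate_succ_apply', ih, dl_tr, Function.iterate_succ_apply']
        rw [Nat.mul_succ, add_comm, Function.iterate_add_apply, hn, h2, hm]
        ext k : 1
        rw [tr_apply, tr_apply, tr_apply]
        congr 1
        ring
    obtain ⟨n, hn⟩ := h1 j
    rw [hn, tr_card]
  let f : C(ℤ → A, ℝ) := ⟨fun x => (chr g x).re, Complex.continuous_re.comp (chr_cont g)⟩
  have hre : ∀ (ρ : Measure (ℤ → A)) [IsProbabilityMeasure ρ], ∫ x, f x ∂ρ = (∫ x, chr g x ∂ρ).re := by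
    intro ρ _
    have hi : Integrable (fun x => chr g x) ρ :=
      int_cont (chr_cont g) (C := ‖chrC g‖) (fun x => (chrC g).norm_coe_le_norm x)
    exact Complex.reCLM.integral_comp_comm hi
  have h1 := hconv f
  rw [hre, haar_chr hg, Complex.zero_re] at h1
  have hpos : (0 : ℝ) < (1 / 2) ^ g.support.card := by positivity
  have h2 := h1.eventually_lt_const hpos
  rw [eventually_inf_principal] at h2
  obtain ⟨t, ⟨htD, j, rfl⟩, ht2⟩ := ((dens_mult hD hs).and_eventually h2).exists
  have h3 := ht2 htD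
  have : IsProbabilityMeasure ((mu0 A).map (F^[s * j])) :=
    Measure.isProbabilityMeasure_map (iter_cont hF _).measurable.aemeasurable
  rw [hre, int_map hF, mu0_chr, hiter] at h3
  have h4 : ((1 / 2 : ℂ) ^ g.support.card).re = (1 / 2 : ℝ) ^ g.support.card := by
    have : ((1 / 2 : ℂ) ^ g.support.card) = (((1 / 2 : ℝ) ^ g.support.card : ℝ) : ℂ) := by
      push_cast; rfl
    rw [this, Complex.ofReal_re]
  rw [h4] at h3
  exact lt_irrefl _ h3

theorem rev_strong (hF : AbelianCA F) (hb : Function.Bijective F) (hd : RandomizingInDensity F) :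
    StronglyRandomizing F := by
  intro μ hμ hm
  have hprob : ∀ t, IsProbabilityMeasure (μ.map (F^[t])) := fun t =>
    Measure.isProbabilityMeasure_map (iter_cont hF _).measurable.aemeasurable
  intro f
  apply weak_of_fourier (μ := fun t => μ.map (F^[t]))
  intro c
  rw [principal_univ, inf_top_eq]
  by_cases hc : c = 0
  · subst hc
    have h1 : ∀ (ρ : Measure (ℤ → A)) [IsProbabilityMeasure ρ], ∫ x, chr 0 x ∂ρ = 1 := by
      intro ρ _
      simp only [chr_zero]
      simp
    simp only [h1]
    exact tendsto_const_nhds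
  rw [haar_chr hc]
  rw [Metric.tendsto_nhds]
  intro ε hε
  obtain ⟨R, hR⟩ := hm ε hε
  have hlarge : ∀ᶠ t in atTop, R < ((dl hF)^[t] c).support.card := by
    by_contra hcon
    rw [not_eventually] at hcon
    have hinf : {t : ℕ | ((dl hF)^[t] c).support.card ≤ R}.Infinite := by
      rw [← Nat.frequently_atTop_iff_infinite]
      exact hcon.mono fun t ht => not_lt.1 ht
    obtain ⟨E, hE, hFE, hEF⟩ := hF.inverse hb
    obtain ⟨g, hg, s, hs, m, hgm⟩ := link_gen (B := AddChar A ℂ) (Δ := dl hF) (Δ' := dl hE)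
      (dl_add hF) (dl_add hE) (dl_tr hF) (dl_tr hE) (dl_inv hF hE hFE) (dl_inv hE hF hEF) hc hinf
      (fun t ht => ht)
    exact no_wave hF hd hg hs hgm
  filter_upwards [hlarge] with t ht
  rw [int_map hF, dist_zero_right]
  exact hR _ ht

end Pool.Agent.R290.RV
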