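import Pool.Agent.R290.RV.Alg

/-!
From finitely supported functions on the integers to vectors of Laurent polynomials.
-/

open LaurentPolynomial Filter

namespace Pool.Agent.R290.RV

variable {B : Type} [AddCommGroup B]

/-- translation -/
noncomputable def trB (n : ℤ) (c : ℤ →₀ B) : ℤ →₀ B := Finsupp.equivMapDomain (Equiv.addRight n) c

lemma trB_apply (n : ℤ) (c : ℤ →₀ B) (m : ℤ) : trB n c m = c (m - n) := rfl

section theta

variable {p : ℕ} [Fact p.Prime] {W : Type} [AddCommGroup W] [Module (ZMod p) W] {n : ℕ}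
  (b : Module.Basis (Fin n) (ZMod p) W) (j : W →+ B) (hj : Function.Injective j)

include hj in
lemma th_supp (r : Fin n → (ZMod p)[T;T⁻¹]) (m : ℤ)
    (h : j (b.equivFun.symm (fun i => (r i).coeff m)) ≠ 0) : m ∈ vs r := by
  by_contra hcon
  apply h
  have : (fun i => (r i).coeff m) = 0 := by
    ext i
    by_contra h2
    exact hcon (mem_vs.2 ⟨i, h2⟩)
  rw [this, map_zero, map_zero]

/-- from vectors of Laurent polynomials to finitely supported functions -/
noncomputable def tht (r : Fin n → (ZMod p)[T;T⁻¹]) : ℤ →₀ B :=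
  Finsupp.onFinset (vs r) (fun m => j (b.equivFun.symm (fun i => (r i).coeff m)))
    (fun m h => th_supp b j hj r m h)

lemma tht_apply (r : Fin n → (ZMod p)[T;T⁻¹]) (m : ℤ) :
    tht b j hj r m = j (b.equivFun.symm (fun i => (r i).coeff m)) := rfl

lemma tht_add (r s : Fin n → (ZMod p)[T;T⁻¹]) : tht b j hj (r + s) = tht b j hj r + tht b j hj s := by
  ext m
  rw [Finsupp.add_apply, tht_apply, tht_apply, tht_apply, ← map_add, ← map_add]
  rfl

lemma tht_inj {r s : Fin n → (ZMod p)[T;T⁻¹]} (h : tht b j hj r = tht b j hj s) : r = s := by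
  ext i m
  have h1 := DFunLike.congr_fun h m
  rw [tht_apply, tht_apply] at h1
  exact congrFun (b.equivFun.symm.injective (hj h1)) i

lemma tht_T (k : ℤ) (r : Fin n → (ZMod p)[T;T⁻¹]) :
    tht b j hj ((T k : (ZMod p)[T;T⁻¹]) • r) = trB k (tht b j hj r) := by
  ext m
  rw [trB_apply, tht_apply, tht_apply]
  congr 2
  ext i
  rw [Pi.smul_apply, smul_eq_mul, coeff_T_mul]

lemma tht_supp (r : Fin n → (ZMod p)[T;T⁻¹]) : (tht b j hj r).support = vs r := by
  ext m
  rw [Finsupp.mem_support_iff, tht_apply, mem_vs]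
  constructor
  · intro h
    exact mem_vs.1 (th_supp b j hj r m h)
  · rintro ⟨i, hi⟩ h
    rw [← map_zero j] at h
    have h1 := hj h
    rw [← map_zero b.equivFun.symm] at h1
    exact hi (congrFun (b.equivFun.symm.injective h1) i)

lemma tht_surj {c : ℤ →₀ B} (hc : ∀ m, ∃ w, j w = c m) : ∃ r, tht b j hj r = c := by
  choose w hw using hc
  have hw0 : ∀ m, c m = 0 → w m = 0 := by
    intro m h
    apply hj
    rw [hw, h, map_zero]
  refine ⟨fun i => AddMonoidAlgebra.ofCoeff (Finsupp.onFinset c.support (fun m => b.equivFun (w m) i)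
    (fun m h => ?_)), ?_⟩
  · rw [Finsupp.mem_support_iff]
    intro h0
    apply h
    rw [hw0 m h0, map_zero]; rfl
  · ext m
    rw [tht_apply, ← hw m]
    congr 1
    rw [LinearEquiv.symm_apply_eq]
    rfl

end theta

section lift

variable {p : ℕ} [Fact p.Prime] {n : ℕ}

lemma C_smul_eq (a : ZMod p) (r : Fin n → (ZMod p)[T;T⁻¹]) :
    (C a : (ZMod p)[T;T⁻¹]) • r = a.val • r := by
  have : (C a : (ZMod p)[T;T⁻¹]) = ((a.val : ℕ) : (ZMod p)[T;T⁻¹]) := by
    conv_lhs => rw [← ZMod.natCast_zmod_val a]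
    rw [map_natCast]
  rw [this, Nat.cast_smul_eq_nsmul]

/-- an additive map commuting with the shift is linear -/
lemma lin_of {g : (Fin n → (ZMod p)[T;T⁻¹]) → (Fin n → (ZMod p)[T;T⁻¹])}
    (hadd : ∀ r s, g (r + s) = g r + g s)
    (hT : ∀ (k : ℤ) r, g ((T k : (ZMod p)[T;T⁻¹]) • r) = (T k : (ZMod p)[T;T⁻¹]) • g r)
    (a : (ZMod p)[T;T⁻¹]) (r : Fin n → (ZMod p)[T;T⁻¹]) : g (a • r) = a • g r := by
  have hns : ∀ (m : ℕ) r, g (m • r) = m • g r := fun m r =>
    map_nsmul (AddMonoidHom.mk' g hadd) m r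
  induction a using LaurentPolynomial.induction_on' generalizing r with
  | add p q hp hq => rw [add_smul, hadd, hp, hq, add_smul]
  | C_mul_T k a =>
    rw [mul_smul, C_smul_eq, hns, hT, mul_smul, C_smul_eq]

end lift

theorem link_core {p : ℕ} [Fact p.Prime] {W : Type} [AddCommGroup W] [Finite W] [Module (ZMod p) W]
    {j : W →+ B} (hj : Function.Injective j) (hW : ∀ w : B, p • w = 0 ↔ ∃ v, j v = w)
    {Δ Δ' : (ℤ →₀ B) → (ℤ →₀ B)} (hadd : ∀ a b, Δ (a + b) = Δ a + Δ b)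
    (hadd' : ∀ a b, Δ' (a + b) = Δ' a + Δ' b)
    (hsh : ∀ n c, Δ (trB n c) = trB n (Δ c)) (hsh' : ∀ n c, Δ' (trB n c) = trB n (Δ' c))
    (hinv1 : ∀ c, Δ' (Δ c) = c) (hinv2 : ∀ c, Δ (Δ' c) = c) {c' : ℤ →₀ B} (hc'0 : c' ≠ 0)
    (hpc' : p • c' = 0) {S : Set ℕ}
    (hS : S.Infinite) {r : ℕ} (hr : ∀ t ∈ S, (Δ^[t] c').support.card ≤ r) :
    ∃ g : ℤ →₀ B, g ≠ 0 ∧ ∃ s : ℕ, 0 < s ∧ ∃ m : ℤ, Δ^[s] g = trB m g := by
  classical
  have hns : ∀ (m : ℕ) c, Δ (m • c) = m • Δ c := fun m c => map_nsmul (AddMonoidHom.mk' Δ hadd) m c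
  have hns' : ∀ (m : ℕ) c, Δ' (m • c) = m • Δ' c := fun m c => map_nsmul (AddMonoidHom.mk' Δ' hadd') m c
  have hz : Δ 0 = 0 := by
    have := hns 0 0
    rwa [zero_smul, zero_smul] at this
  have hz' : Δ' 0 = 0 := by
    have := hns' 0 0
    rwa [zero_smul, zero_smul] at this
  have iF : Module.Finite (ZMod p) W := Module.Finite.of_finite
  let b := Module.finBasis (ZMod p) W
  set θ := tht b j hj with hθ
  have hθsurj : ∀ c : ℤ →₀ B, p • c = 0 → ∃ r, θ r = c := by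
    intro c hc
    apply tht_surj
    intro m
    rw [← hW, ← Finsupp.smul_apply, hc]; rfl
  have hθp : ∀ r, p • θ r = 0 := by
    intro r
    ext m
    rw [Finsupp.smul_apply, tht_apply, Finsupp.zero_apply, hW]
    exact ⟨_, rfl⟩
  have hex : ∀ r, ∃ r', θ r' = Δ (θ r) := fun r => hθsurj _ (by rw [← hns, hθp, hz])
  have hex' : ∀ r, ∃ r', θ r' = Δ' (θ r) := fun r => hθsurj _ (by rw [← hns', hθp, hz'])
  choose g hg using hex
  choose g' hg' using hex'
  have hga : ∀ r s, g (r + s) = g r + g s := by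
    intro r s
    apply tht_inj b j hj
    show θ (g (r + s)) = θ (g r + g s)
    have e1 : θ (r + s) = θ r + θ s := tht_add b j hj r s
    have e2 : θ (g r + g s) = θ (g r) + θ (g s) := tht_add b j hj _ _
    rw [hg, e1, hadd, e2, hg, hg]
  have hga' : ∀ r s, g' (r + s) = g' r + g' s := by
    intro r s
    apply tht_inj b j hj
    show θ (g' (r + s)) = θ (g' r + g' s)
    have e1 : θ (r + s) = θ r + θ s := tht_add b j hj r s
    have e2 : θ (g' r + g' s) = θ (g' r) + θ (g' s) := tht_add b j hj _ _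
    rw [hg', e1, hadd', e2, hg', hg']
  have hgT : ∀ (k : ℤ) r, g ((T k : (ZMod p)[T;T⁻¹]) • r) = (T k : (ZMod p)[T;T⁻¹]) • g r := by
    intro k r
    apply tht_inj b j hj
    show θ _ = θ _
    have e1 : θ ((T k : (ZMod p)[T;T⁻¹]) • r) = trB k (θ r) := tht_T b j hj k r
    have e2 : θ ((T k : (ZMod p)[T;T⁻¹]) • g r) = trB k (θ (g r)) := tht_T b j hj k _
    rw [hg, e1, hsh, e2, hg]
  have hgT' : ∀ (k : ℤ) r, g' ((T k : (ZMod p)[T;T⁻¹]) • r) = (T k : (ZMod p)[T;T⁻¹]) • g' r := by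
    intro k r
    apply tht_inj b j hj
    show θ _ = θ _
    have e1 : θ ((T k : (ZMod p)[T;T⁻¹]) • r) = trB k (θ r) := tht_T b j hj k r
    have e2 : θ ((T k : (ZMod p)[T;T⁻¹]) • g' r) = trB k (θ (g' r)) := tht_T b j hj k _
    rw [hg', e1, hsh', e2, hg']
  have hgg : ∀ r, g' (g r) = r := by
    intro r
    apply tht_inj b j hj
    show θ _ = θ _
    rw [hg', hg, hinv1]
  have hgg' : ∀ r, g (g' r) = r := by
    intro r
    apply tht_inj b j hj
    show θ _ = θ _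
    rw [hg, hg', hinv2]
  let G : (Fin (Module.finrank (ZMod p) W) → (ZMod p)[T;T⁻¹]) ≃ₗ[(ZMod p)[T;T⁻¹]]
      (Fin (Module.finrank (ZMod p) W) → (ZMod p)[T;T⁻¹]) :=
    { toFun := g
      map_add' := hga
      map_smul' := fun a r => lin_of hga hgT a r
      invFun := g'
      left_inv := hgg
      right_inv := hgg' }
  have hGθ : ∀ (t : ℕ) r, θ ((G ^ t) r) = Δ^[t] (θ r) := by
    intro t r
    induction t with
    | zero => rfl
    | succ t ih =>
      rw [pow_succ', LinearEquiv.mul_apply, Function.iterate_succ_apply', ← ih]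
      exact hg _
  have hθ0 : θ 0 = 0 := by
    ext m
    rw [tht_apply]
    have : (fun i => ((0 : Fin (Module.finrank (ZMod p) W) → (ZMod p)[T;T⁻¹]) i).coeff m) = 0 := by
      ext i; simp
    rw [this, map_zero, map_zero]; rfl
  obtain ⟨w, hw⟩ := hθsurj c' hpc'
  have hw0 : w ≠ 0 := by
    rintro rfl
    apply hc'0
    rw [← hw, hθ0]
  have hB : Bd G S w := by
    refine ⟨r, fun t ht => ?_⟩
    have e1 : (θ ((G ^ t) w)).support = vs ((G ^ t) w) := tht_supp b j hj _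
    rw [← e1, hGθ, hw]
    exact hr t ht
  obtain ⟨v, hv, s, hs, m, hm⟩ := main_alg G hS hw0 hB
  refine ⟨θ v, fun h0 => hv ?_, s, hs, m, ?_⟩
  · apply tht_inj b j hj
    show θ v = θ 0
    rw [h0, hθ0]
  · rw [← hGθ, hm]
    exact tht_T b j hj m v

theorem link_gen [Finite B] {Δ Δ' : (ℤ →₀ B) → (ℤ →₀ B)} (hadd : ∀ a b, Δ (a + b) = Δ a + Δ b)
    (hadd' : ∀ a b, Δ' (a + b) = Δ' a + Δ' b)
    (hsh : ∀ n c, Δ (trB n c) = trB n (Δ c)) (hsh' : ∀ n c, Δ' (trB n c) = trB n (Δ' c))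
    (hinv1 : ∀ c, Δ' (Δ c) = c) (hinv2 : ∀ c, Δ (Δ' c) = c) {c : ℤ →₀ B} (hc : c ≠ 0) {S : Set ℕ}
    (hS : S.Infinite) {r : ℕ} (hr : ∀ t ∈ S, (Δ^[t] c).support.card ≤ r) :
    ∃ g : ℤ →₀ B, g ≠ 0 ∧ ∃ s : ℕ, 0 < s ∧ ∃ m : ℤ, Δ^[s] g = trB m g := by
  classical
  have hns : ∀ (m : ℕ) c, Δ (m • c) = m • Δ c := fun m c => map_nsmul (AddMonoidHom.mk' Δ hadd) m c
  -- a multiple of prime order
  have hfo : (Nat.card B) • c = 0 := by
    ext m
    rw [Finsupp.smul_apply, Finsupp.zero_apply, card_nsmul_eq_zero']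
  have hpos : 0 < addOrderOf c := by
    rw [Nat.pos_iff_ne_zero]
    intro h0
    rw [addOrderOf_eq_zero_iff'] at h0
    exact h0 _ Nat.card_pos hfo
  have hne1 : addOrderOf c ≠ 1 := by
    intro h1
    exact hc (AddMonoid.addOrderOf_eq_one_iff.1 h1)
  obtain ⟨p, hpp, hpd⟩ : ∃ p : ℕ, p.Prime ∧ p ∣ addOrderOf c :=
    ⟨_, Nat.minFac_prime hne1, Nat.minFac_dvd _⟩
  have : Fact p.Prime := ⟨hpp⟩
  obtain ⟨c', hc'⟩ : ∃ c' : ℤ →₀ B, c' = (addOrderOf c / p) • c := ⟨_, rfl⟩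
  have hc'0 : c' ≠ 0 := by
    intro h0
    rw [hc'] at h0
    have h1 := addOrderOf_dvd_of_nsmul_eq_zero h0
    have h2 : addOrderOf c / p < addOrderOf c := Nat.div_lt_self hpos hpp.one_lt
    have h3 : 0 < addOrderOf c / p := Nat.div_pos (Nat.le_of_dvd hpos hpd) hpp.pos
    exact absurd (Nat.le_of_dvd h3 h1) (by omega)
  have hpc' : p • c' = 0 := by
    rw [hc', smul_smul, Nat.mul_div_cancel' hpd, addOrderOf_nsmul_eq_zero]
  have hit : ∀ t, Δ^[t] c' = (addOrderOf c / p) • Δ^[t] c := by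
    intro t
    induction t with
    | zero => exact hc'
    | succ t ih => rw [Function.iterate_succ_apply', ih, hns, Function.iterate_succ_apply']
  -- the torsion subgroup
  let W : AddSubgroup B := (nsmulAddMonoidHom p : B →+ B).ker
  have hWp : ∀ x : W, p • x = 0 := fun x => Subtype.ext x.2
  have hj : Function.Injective W.subtype := Subtype.val_injective
  have hW : ∀ w : B, p • w = 0 ↔ ∃ v : W, W.subtype v = w := by
    intro w
    constructor
    · intro h; exact ⟨⟨w, h⟩, rfl⟩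
    · rintro ⟨v, rfl⟩; exact v.2
  refine @link_core B _ p _ W _ _ (AddCommGroup.zmodModule hWp) W.subtype hj hW Δ Δ' hadd hadd'
    hsh hsh' hinv1 hinv2 c' hc'0 hpc' S hS r ?_
  intro t ht
  rw [hit]
  exact (Finset.card_le_card Finsupp.support_smul).trans (hr t ht)

end Pool.Agent.R290.RV
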