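import Mathlib

/-!
Lowest and highest exponents of Laurent polynomials.
-/

open LaurentPolynomial

namespace Pool.Agent.R290.RV

variable {k : Type} [Field k]

/-- all exponents are at least `K` -/
def Lo (K : ℤ) (r : k[T;T⁻¹]) : Prop := ∀ m : ℤ, m < K → r.coeff m = 0

lemma Lo.mono {K L : ℤ} {r : k[T;T⁻¹]} (h : Lo K r) (hLK : L ≤ K) : Lo L r :=
  fun m hm => h m (by omega)

lemma Lo.zero (K : ℤ) : Lo K (0 : k[T;T⁻¹]) := fun m _ => by simp

lemma Lo.add {K : ℤ} {r s : k[T;T⁻¹]} (hr : Lo K r) (hs : Lo K s) : Lo K (r + s) := fun m hm => by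
  rw [AddMonoidAlgebra.coeff_add, Finsupp.add_apply, hr m hm, hs m hm, add_zero]

lemma Lo.neg {K : ℤ} {r : k[T;T⁻¹]} (hr : Lo K r) : Lo K (-r) := fun m hm => by
  rw [AddMonoidAlgebra.coeff_neg, Finsupp.neg_apply, hr m hm, neg_zero]

lemma Lo.sub {K : ℤ} {r s : k[T;T⁻¹]} (hr : Lo K r) (hs : Lo K s) : Lo K (r - s) := by
  rw [sub_eq_add_neg]; exact hr.add hs.neg

lemma Lo.sum {K : ℤ} {α : Type*} {s : Finset α} {f : α → k[T;T⁻¹]} (h : ∀ i ∈ s, Lo K (f i)) :
    Lo K (∑ i ∈ s, f i) := fun m hm => by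
  rw [AddMonoidAlgebra.coeff_sum, Finsupp.finsetSum_apply]
  exact Finset.sum_eq_zero fun i hi => h i hi m hm

lemma Lo.mul {a b : ℤ} {r s : k[T;T⁻¹]} (hr : Lo a r) (hs : Lo b s) : Lo (a + b) (r * s) := by
  intro m hm
  rw [AddMonoidAlgebra.coeff_mul]
  refine Finset.sum_eq_zero fun i hi => Finset.sum_eq_zero fun j hj => ?_
  have h1 : a ≤ i := by
    by_contra h
    exact (Finsupp.mem_support_iff.1 hi) (hr i (by omega))
  have h2 : b ≤ j := by
    by_contra h
    exact (Finsupp.mem_support_iff.1 hj) (hs j (by omega))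
  beta_reduce
  rw [if_neg (by omega)]

lemma lead {a b : ℤ} {r s : k[T;T⁻¹]} (hr : Lo a r) (hs : Lo b s) :
    (r * s).coeff (a + b) = r.coeff a * s.coeff b := by
  rw [AddMonoidAlgebra.coeff_mul]
  have h1 : ∀ i ∈ r.coeff.support, a ≤ i := by
    intro i hi
    by_contra h
    exact (Finsupp.mem_support_iff.1 hi) (hr i (by omega))
  have h2 : ∀ j ∈ s.coeff.support, b ≤ j := by
    intro j hj
    by_contra h
    exact (Finsupp.mem_support_iff.1 hj) (hs j (by omega))
  unfold Finsupp.sum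
  beta_reduce
  rw [Finset.sum_eq_single a]
  · rw [Finset.sum_eq_single b]
    · rw [if_pos rfl]
    · intro j hj hne
      rw [if_neg (by omega)]
    · intro hb
      rw [if_pos rfl, Finsupp.notMem_support_iff.1 hb, mul_zero]
  · intro i hi hne
    refine Finset.sum_eq_zero fun j hj => ?_
    have := h1 i hi
    have := h2 j hj
    rw [if_neg (by omega)]
  · intro ha
    refine Finset.sum_eq_zero fun j hj => ?_
    rw [Finsupp.notMem_support_iff.1 ha, zero_mul]
    split_ifs <;> rfl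

lemma supp_ne {r : k[T;T⁻¹]} (hr : r ≠ 0) : r.coeff.support.Nonempty := by
  rw [Finsupp.support_nonempty_iff]
  intro h
  apply hr
  ext m
  rw [h]; simp

/-- the lowest exponent -/
noncomputable def lo (r : k[T;T⁻¹]) : ℤ :=
  open Classical in if h : r.coeff.support.Nonempty then r.coeff.support.min' h else 0

lemma lo_Lo (r : k[T;T⁻¹]) : Lo (lo r) r := by
  intro m hm
  unfold lo at hm
  split_ifs at hm with h
  · by_contra hne
    have := Finset.min'_le _ m (Finsupp.mem_support_iff.2 hne)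
    omega
  · rw [Finset.not_nonempty_iff_eq_empty, Finsupp.support_eq_empty] at h
    rw [h]; simp

lemma lo_ne {r : k[T;T⁻¹]} (hr : r ≠ 0) : r.coeff (lo r) ≠ 0 := by
  unfold lo
  rw [dif_pos (supp_ne hr)]
  exact Finsupp.mem_support_iff.1 (Finset.min'_mem _ _)

lemma lo_eq {r : k[T;T⁻¹]} {K : ℤ} (h1 : Lo K r) (h2 : r.coeff K ≠ 0) : lo r = K := by
  have hr : r ≠ 0 := by rintro rfl; exact h2 (by simp)
  have h3 : K ≤ lo r := by
    by_contra h
    exact lo_ne hr (h1 _ (by omega))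
  have h4 : lo r ≤ K := by
    by_contra h
    exact h2 (lo_Lo r K (by omega))
  omega

lemma lo_le {r : k[T;T⁻¹]} {m : ℤ} (h : r.coeff m ≠ 0) : lo r ≤ m := by
  by_contra h2
  exact h (lo_Lo r m (by omega))

lemma lo_mul {r s : k[T;T⁻¹]} (hr : r ≠ 0) (hs : s ≠ 0) : lo (r * s) = lo r + lo s :=
  lo_eq ((lo_Lo r).mul (lo_Lo s)) (by
    rw [lead (lo_Lo r) (lo_Lo s)]
    exact mul_ne_zero (lo_ne hr) (lo_ne hs))

/-- the highest exponent -/
noncomputable def hi (r : k[T;T⁻¹]) : ℤ := -lo (invert r)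

lemma invert_ne {r : k[T;T⁻¹]} (hr : r ≠ 0) : invert r ≠ 0 := by
  intro h
  apply hr
  have := congrArg invert h
  rwa [map_zero, involutive_invert r] at this

lemma hi_mul {r s : k[T;T⁻¹]} (hr : r ≠ 0) (hs : s ≠ 0) : hi (r * s) = hi r + hi s := by
  unfold hi
  rw [map_mul, lo_mul (invert_ne hr) (invert_ne hs)]; ring

lemma le_hi {r : k[T;T⁻¹]} {m : ℤ} (h : r.coeff m ≠ 0) : m ≤ hi r := by
  unfold hi
  have := lo_le (r := invert r) (m := -m) (by rw [invert_apply, neg_neg]; exact h)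
  omega

lemma lo_le_hi {r : k[T;T⁻¹]} (hr : r ≠ 0) : lo r ≤ hi r := le_hi (lo_ne hr)

/-- the width -/
noncomputable def wd (r : k[T;T⁻¹]) : ℤ := hi r - lo r

lemma wd_nonneg {r : k[T;T⁻¹]} (hr : r ≠ 0) : 0 ≤ wd r := by
  have := lo_le_hi hr; unfold wd; omega

lemma wd_mul {r s : k[T;T⁻¹]} (hr : r ≠ 0) (hs : s ≠ 0) : wd (r * s) = wd r + wd s := by
  unfold wd; rw [hi_mul hr hs, lo_mul hr hs]; ring

lemma lo_T_mul (n : ℤ) {r : k[T;T⁻¹]} (hr : r ≠ 0) : lo (T n * r) = n + lo r := by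
  have h1 : (T n : k[T;T⁻¹]) ≠ 0 := (isUnit_T n).ne_zero
  rw [lo_mul h1 hr]
  congr 1
  refine lo_eq (fun m hm => ?_) ?_
  · rw [T_apply, if_neg (by omega)]
  · rw [T_apply, if_pos rfl]; exact one_ne_zero

lemma coeff_T_mul (n m : ℤ) (r : k[T;T⁻¹]) : (T n * r).coeff m = r.coeff (m - n) := by
  induction r using LaurentPolynomial.induction_on' with
  | add p q hp hq => rw [mul_add, AddMonoidAlgebra.coeff_add, Finsupp.add_apply, hp, hq,
      AddMonoidAlgebra.coeff_add, Finsupp.add_apply]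
  | C_mul_T j a =>
    have e : T n * (C a * T j : k[T;T⁻¹]) = C a * T (n + j) := by
      rw [T_add]; ring
    rw [e, ← single_eq_C_mul_T, ← single_eq_C_mul_T, AddMonoidAlgebra.coeff_single,
      AddMonoidAlgebra.coeff_single, Finsupp.single_apply, Finsupp.single_apply]
    by_cases h : n + j = m
    · rw [if_pos h, if_pos (by omega)]
    · rw [if_neg h, if_neg (by omega)]

lemma Lo.T_mul {K : ℤ} {r : k[T;T⁻¹]} (h : Lo K r) (n : ℤ) : Lo (n + K) (T n * r) := fun m hm => by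
  rw [coeff_T_mul]; exact h _ (by omega)

lemma Lo_all {r : k[T;T⁻¹]} (h : ∀ K : ℕ, Lo (K : ℤ) r) : r = 0 := by
  ext m
  have := h (m.natAbs + 1) m (by omega)
  rw [this]; simp

lemma exists_Lo_fin {α : Type*} [Finite α] (f : α → k[T;T⁻¹]) : ∃ C : ℕ, ∀ i, Lo (-(C : ℤ)) (f i) := by
  have := Fintype.ofFinite α
  refine ⟨∑ i, (lo (f i)).natAbs, fun i => (lo_Lo (f i)).mono ?_⟩
  have : (lo (f i)).natAbs ≤ ∑ i, (lo (f i)).natAbs :=
    Finset.single_le_sum (f := fun i => (lo (f i)).natAbs) (fun _ _ => Nat.zero_le _) (Finset.mem_univ i)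
  omega

/-- perturbation of products -/
lemma Lo_prod_sub {α : Type*} {s : Finset α} {a b : α → k[T;T⁻¹]} {c K : ℤ} (hc : 0 ≤ c) (hK : 0 ≤ K)
    (ha : ∀ i ∈ s, Lo (-c) (a i)) (hb : ∀ i ∈ s, Lo K (b i)) :
    Lo (-c * s.card) (∏ i ∈ s, (a i + b i)) ∧ Lo (-c * s.card) (∏ i ∈ s, a i) ∧
      Lo (K - c * s.card) (∏ i ∈ s, (a i + b i) - ∏ i ∈ s, a i) := by
  classical
  induction s using Finset.induction_on with
  | empty =>
    simp only [Finset.prod_empty, Finset.card_empty, Nat.cast_zero, mul_zero, sub_zero, sub_self]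
    refine ⟨?_, ?_, Lo.zero _⟩ <;>
    · intro m hm
      rw [← T_zero, T_apply, if_neg (by omega)]
  | insert i s hi ih =>
    obtain ⟨h1, h2, h3⟩ := ih (fun j hj => ha j (Finset.mem_insert_of_mem hj))
      (fun j hj => hb j (Finset.mem_insert_of_mem hj))
    have ai := ha i (Finset.mem_insert_self _ _)
    have bi := hb i (Finset.mem_insert_self _ _)
    rw [Finset.prod_insert hi, Finset.prod_insert hi, Finset.card_insert_of_notMem hi]
    push_cast
    have e1 : -c * ((s.card : ℤ) + 1) = -c + -c * s.card := by ring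
    refine ⟨?_, ?_, ?_⟩
    · rw [e1]
      exact (ai.add (bi.mono (by omega))).mul h1
    · rw [e1]; exact ai.mul h2
    · have e2 : (a i + b i) * ∏ x ∈ s, (a x + b x) - a i * ∏ x ∈ s, a x =
          (a i + b i) * (∏ x ∈ s, (a x + b x) - ∏ x ∈ s, a x) + b i * ∏ x ∈ s, a x := by ring
      rw [e2]
      refine Lo.add ?_ ?_
      · have := (ai.add (bi.mono (by omega : -c ≤ K))).mul h3
        exact this.mono (by ring_nf; omega)
      · have := bi.mul h2
        exact this.mono (by ring_nf; omega)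

lemma Lo_det_sub {d : ℕ} {A B : Matrix (Fin d) (Fin d) k[T;T⁻¹]} {c K : ℤ} (hc : 0 ≤ c) (hK : 0 ≤ K)
    (ha : ∀ i j, Lo (-c) (A i j)) (hb : ∀ i j, Lo K (B i j)) :
    Lo (K - c * d) ((A + B).det - A.det) := by
  rw [Matrix.det_apply, Matrix.det_apply, ← Finset.sum_sub_distrib]
  refine Lo.sum fun σ _ => ?_
  rw [← smul_sub]
  have h := (Lo_prod_sub (s := Finset.univ) (a := fun i => A (σ i) i) (b := fun i => B (σ i) i) hc hK
    (fun i _ => ha _ _) (fun i _ => hb _ _)).2.2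
  rw [Finset.card_univ, Fintype.card_fin] at h
  have h' : Lo (K - c * d) (∏ i, (A + B) (σ i) i - ∏ i, A (σ i) i) := h
  rcases Int.units_eq_one_or (Equiv.Perm.sign σ) with h1 | h1
  · rw [h1, one_smul]; exact h'
  · rw [h1, Units.neg_smul, one_smul]; exact h'.neg

end Pool.Agent.R290.RV
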